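import Pool.Agent.Q32.LR2.Rs

/-!
(Copy of Pool/Agent/Q102/LR2/F0.lean with one Mathlib lemma replaced by Q32.LR2.rsub.)

# Project LR2 (helper32), job F0: a letter leaves a half space only at its edge
-/

set_option autoImplicit false

namespace Pool.Agent.Q102.LR2

open Q32.LR2 FreeGroup

variable {Y : Type} [DecidableEq Y]

/-- the word of `v * mk [l]` -/
theorem word_mul (v : FreeGroup Y) (l : Y × Bool) :
    (v * FreeGroup.mk [l]).toWord = v.toWord ++ [l] ∨
      v.toWord = (v * FreeGroup.mk [l]).toWord ++ [(l.1, !l.2)] := by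
  obtain ⟨L, x, hL⟩ | hL : (∃ L x, v.toWord = L ++ [x]) ∨ v.toWord = [] := by
    rcases List.eq_nil_or_concat v.toWord with h | ⟨L, x, h⟩
    · exact Or.inr h
    · exact Or.inl ⟨L, x, by rw [h, List.concat_eq_append]⟩
  · have hred : IsReduced (L ++ [x]) := by rw [← hL]; exact isReduced_toWord
    by_cases hx : x = (l.1, !l.2)
    · right
      have hv : v * FreeGroup.mk [l] = FreeGroup.mk L := by
        have h1 : v = FreeGroup.mk (L ++ [x]) := by rw [← hL, mk_toWord]
        rw [h1, mul_mk, hx]
        have h2 : L ++ [(l.1, !l.2)] ++ [l] = L ++ (l.1, !l.2) :: (l.1, l.2) :: [] := by simp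
        rw [h2]
        have h3 : Red.Step (L ++ (l.1, !l.2) :: (l.1, l.2) :: []) (L ++ []) := Red.Step.not_rev
        rw [List.append_nil] at h3
        exact Quot.sound h3
      have hL' : IsReduced L := Q32.LR2.rsub hred ⟨[], [x], by simp⟩
      rw [hv, toWord_mk, hL'.reduce_eq, hL, hx]
    · left
      rw [toWord_mul, toWord_mk]
      have h1 : reduce [l] = [l] := (IsReduced.singleton (a := l)).reduce_eq
      rw [h1]
      refine IsReduced.reduce_eq ?_
      rw [hL]
      have h2 : IsReduced ([x] ++ [l]) := by
        show IsReduced [x, l]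
        rw [FreeGroup.isReduced_cons_cons]
        refine ⟨fun h => ?_, IsReduced.singleton⟩
        by_contra h3
        apply hx
        obtain ⟨x1, x2⟩ := x
        obtain ⟨l1, l2⟩ := l
        simp only at h h3
        subst h
        cases x2 <;> cases l2 <;> simp_all
      exact IsReduced.append_overlap hred h2 (by simp)
  · left
    rw [toWord_mul, hL, toWord_mk, List.nil_append]
    rw [(IsReduced.singleton (a := l)).reduce_eq]
    exact (IsReduced.singleton (a := l)).reduce_eq

theorem mem_Hs (g u : FreeGroup Y) (y : Y) : u ∈ Hs g y ↔ (g⁻¹ * u).toWord.head? = some (y, true) :=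
  Iff.rfl

theorem s_F0 : S_F0 := by
  intro Y _ w g y l h1 h2
  rw [mem_Hs] at h1 h2
  rw [← mul_assoc] at h2
  set v := g⁻¹ * w with hv
  have hne : v.toWord ≠ [] := by
    intro h
    rw [h] at h1
    simp at h1
  rcases word_mul v l with h | h
  · exfalso
    apply h2
    rw [h, List.head?_append_of_ne_nil _ hne]
    exact h1
  · rcases hL : (v * FreeGroup.mk [l]).toWord with _ | ⟨a, L⟩
    · rw [hL] at h
      rw [h] at h1
      simp only [List.nil_append, List.head?_cons, Option.some.injEq] at h1
      have hl : l = (y, false) := by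
        obtain ⟨l1, l2⟩ := l
        simp only [Prod.mk.injEq, Bool.not_eq_true'] at h1
        rw [h1.1, h1.2]
      refine ⟨?_, hl⟩
      have h3 : v = FreeGroup.mk [(l.1, !l.2)] := by
        rw [← mk_toWord (x := v), h, List.nil_append]
      have h4 : v = FreeGroup.of y := by rw [h3, hl]; rfl
      rw [← h4, hv, mul_inv_cancel_left]
    · exfalso
      apply h2
      rw [hL]
      rw [h, hL] at h1
      simpa using h1

end Pool.Agent.Q102.LR2
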