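import Pool.Agent.Q32.LR2.Rs

/-!
(Copy of Pool/Agent/Q190/LR2/F1.lean with one Mathlib lemma replaced by Q32.LR2.rsub.)

# Project LR2, jobs F1 and F2: crossing numbers, half spaces separate cosets
-/

set_option autoImplicit false
set_option linter.all false

namespace Q190.LR2

open Q32.LR2

section

variable {Y : Type} [DecidableEq Y]

theorem mk_cons (l : Y × Bool) (M : List (Y × Bool)) :
    FreeGroup.mk (l :: M) = FreeGroup.mk [l] * FreeGroup.mk M := by
  rw [FreeGroup.mul_mk]
  rfl

theorem cross_list (h0 : S_F0) (g : FreeGroup Y) (y : Y) (M : List (Y × Bool)) :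
    {u | u ∈ Hs g y ∧ u * FreeGroup.mk M ∉ Hs g y}.Finite ∧
      {u | u ∈ Hs g y ∧ u * FreeGroup.mk M ∉ Hs g y}.ncard ≤ M.length := by
  induction M with
  | nil =>
    have h1 : {u : FreeGroup Y | u ∈ Hs g y ∧ u * FreeGroup.mk [] ∉ Hs g y} = ∅ := by
      apply Set.eq_empty_of_forall_notMem
      rintro u ⟨h1, h2⟩
      rw [← FreeGroup.one_eq_mk, mul_one] at h2
      exact h2 h1
    rw [h1]
    simp
  | cons l M ih =>
    set D := {u | u ∈ Hs g y ∧ u * FreeGroup.mk M ∉ Hs g y} with hD
    have hsub : {u | u ∈ Hs g y ∧ u * FreeGroup.mk (l :: M) ∉ Hs g y} ⊆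
        insert (g * FreeGroup.of y) ((fun u => u * (FreeGroup.mk [l])⁻¹) '' D) := by
      rintro u ⟨hu1, hu2⟩
      rw [mk_cons, ← mul_assoc] at hu2
      by_cases h1 : u * FreeGroup.mk [l] ∈ Hs g y
      · right
        exact ⟨u * FreeGroup.mk [l], ⟨h1, hu2⟩, mul_inv_cancel_right _ _⟩
      · left
        exact (h0 Y u g y l hu1 h1).1
    have hfin : (insert (g * FreeGroup.of y)
        ((fun u => u * (FreeGroup.mk [l])⁻¹) '' D)).Finite := (ih.1.image _).insert _
    refine ⟨hfin.subset hsub, ?_⟩
    calc {u | u ∈ Hs g y ∧ u * FreeGroup.mk (l :: M) ∉ Hs g y}.ncard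
        ≤ (insert (g * FreeGroup.of y) ((fun u => u * (FreeGroup.mk [l])⁻¹) '' D)).ncard :=
          Set.ncard_le_ncard hsub hfin
      _ ≤ ((fun u => u * (FreeGroup.mk [l])⁻¹) '' D).ncard + 1 := Set.ncard_insert_le _ _
      _ ≤ D.ncard + 1 := by
          have := Set.ncard_image_le (f := fun u => u * (FreeGroup.mk [l])⁻¹) ih.1
          omega
      _ ≤ (l :: M).length := by
          rw [List.length_cons]
          have := ih.2
          omega

theorem pairs_list (h0 : S_F0) (M : List (Y × Bool)) :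
    ∀ a : FreeGroup Y, {p : FreeGroup Y × Y | a ∈ Hs p.1 p.2 ∧ a * FreeGroup.mk M ∉ Hs p.1 p.2}.Finite := by
  induction M with
  | nil =>
    intro a
    have h1 : {p : FreeGroup Y × Y | a ∈ Hs p.1 p.2 ∧ a * FreeGroup.mk [] ∉ Hs p.1 p.2} = ∅ := by
      apply Set.eq_empty_of_forall_notMem
      rintro u ⟨h1, h2⟩
      rw [← FreeGroup.one_eq_mk, mul_one] at h2
      exact h2 h1
    rw [h1]
    exact Set.finite_empty
  | cons l M ih =>
    intro a
    have hsub : {p : FreeGroup Y × Y | a ∈ Hs p.1 p.2 ∧ a * FreeGroup.mk (l :: M) ∉ Hs p.1 p.2} ⊆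
        insert (a * (FreeGroup.of l.1)⁻¹, l.1)
          {p : FreeGroup Y × Y | a * FreeGroup.mk [l] ∈ Hs p.1 p.2 ∧
            a * FreeGroup.mk [l] * FreeGroup.mk M ∉ Hs p.1 p.2} := by
      rintro ⟨g, y⟩ ⟨h1, h2⟩
      rw [mk_cons, ← mul_assoc] at h2
      by_cases h3 : a * FreeGroup.mk [l] ∈ Hs g y
      · right
        exact ⟨h3, h2⟩
      · left
        obtain ⟨h4, h5⟩ := h0 Y a g y l h1 h3
        rw [h4, h5]
        simp
    exact ((ih (a * FreeGroup.mk [l])).insert _).subset hsub

end

theorem t_F1 : S_F1 := by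
  intro h0 Y _
  constructor
  · intro v g y
    have h1 := cross_list h0 g y v.toWord
    rw [FreeGroup.mk_toWord] at h1
    exact h1
  · intro a b
    have h1 := pairs_list h0 (a⁻¹ * b).toWord a
    rw [FreeGroup.mk_toWord, mul_inv_cancel_left] at h1
    exact h1

section

variable {Y : Type} [DecidableEq Y]

theorem stable_of (h0 : S_F0) {y x : Y} (hxy : x ≠ y) (g u : FreeGroup Y) :
    u ∈ Hs g y ↔ u * FreeGroup.of x ∈ Hs g y := by
  constructor
  · intro h1
    by_contra h2
    have h3 := (h0 Y u g y (x, true) h1 h2).2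
    rw [Prod.mk.injEq] at h3
    exact hxy h3.1
  · intro h1
    by_contra h2
    have h3 : u * FreeGroup.of x * FreeGroup.mk [(x, false)] ∉ Hs g y := by
      have h4 : FreeGroup.mk [(x, false)] = (FreeGroup.of x)⁻¹ := rfl
      rw [h4, mul_inv_cancel_right]
      exact h2
    have h5 := (h0 Y _ g y (x, false) h1 h3).2
    rw [Prod.mk.injEq] at h5
    exact hxy h5.1

theorem stable_FW (h0 : S_F0) {W : Set Y} {y : Y} (hy : y ∉ W) (g : FreeGroup Y) {w : FreeGroup Y}
    (hw : w ∈ FW W) : ∀ u, u ∈ Hs g y ↔ u * w ∈ Hs g y := by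
  unfold FW at hw
  induction hw using Subgroup.closure_induction with
  | mem x hx =>
    obtain ⟨x0, hx0, rfl⟩ := hx
    exact stable_of h0 (fun h => hy (by rw [← h]; exact hx0)) g
  | one => intro u; rw [mul_one]
  | mul a b _ _ ha hb =>
    intro u
    rw [ha u, hb (u * a), mul_assoc]
  | inv a _ ha =>
    intro u
    rw [ha (u * a⁻¹), inv_mul_cancel_right]

theorem mem_FW_of_letters (W : Set Y) (M : List (Y × Bool)) (h : ∀ l ∈ M, l.1 ∈ W) :
    FreeGroup.mk M ∈ FW W := by
  induction M with
  | nil => rw [← FreeGroup.one_eq_mk]; exact Subgroup.one_mem _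
  | cons l M ih =>
    rw [mk_cons]
    refine Subgroup.mul_mem _ ?_ (ih fun l' hl' => h l' (List.mem_cons_of_mem _ hl'))
    have h1 : FreeGroup.of l.1 ∈ FW W :=
      Subgroup.subset_closure ⟨l.1, h l List.mem_cons_self, rfl⟩
    obtain ⟨y, b⟩ := l
    cases b with
    | true => exact h1
    | false => exact Subgroup.inv_mem _ h1

theorem word_of_reduced {M : List (Y × Bool)} (h : FreeGroup.IsReduced M) :
    (FreeGroup.mk M).toWord = M := by
  rw [FreeGroup.toWord_mk]
  exact h.reduce_eq

theorem head_invRev (P : List (Y × Bool)) (y : Y) (b : Bool) :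
    (FreeGroup.invRev P).head? = some (y, b) ↔ P.getLast? = some (y, !b) := by
  unfold FreeGroup.invRev
  rw [List.head?_reverse, List.getLast?_map]
  cases h : P.getLast? with
  | none => simp
  | some x =>
    obtain ⟨x1, x2⟩ := x
    simp only [Option.map_some, Option.some.injEq, Prod.mk.injEq]
    cases b <;> cases x2 <;> simp

theorem isReduced_append_left {P R : List (Y × Bool)} (h : FreeGroup.IsReduced (P ++ R)) :
    FreeGroup.IsReduced P := Q32.LR2.rsub h ⟨[], R, by simp⟩

theorem isReduced_append_right {P R : List (Y × Bool)} (h : FreeGroup.IsReduced (P ++ R)) :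
    FreeGroup.IsReduced R := Q32.LR2.rsub h ⟨P, [], by simp⟩

theorem isReduced_last {P R : List (Y × Bool)} {a b : Y × Bool}
    (h : FreeGroup.IsReduced (P ++ b :: R)) (ha : P.getLast? = some a) : a.1 = b.1 → a.2 = b.2 := by
  have hne : P ≠ [] := by
    rintro rfl
    simp at ha
  obtain ⟨P', x, rfl⟩ := (List.eq_nil_or_concat P).resolve_left hne |>.imp fun P' h => h
  rw [List.concat_eq_append] at ha h
  rw [List.getLast?_append] at ha
  simp only [List.getLast?_singleton, Option.some_or, Option.some.injEq] at ha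
  subst ha
  have h2 : FreeGroup.IsReduced ([x, b]) := Q32.LR2.rsub h ⟨P', R, by simp⟩
  exact (FreeGroup.isReduced_cons_cons.1 h2).1

end

theorem t_F2 : S_F2 := by
  intro h0 Y _ W u u'
  constructor
  · intro hw y hy g
    have h1 := stable_FW h0 hy g hw u
    rw [mul_inv_cancel_left] at h1
    exact h1
  · intro h
    by_contra hcon
    set v := u⁻¹ * u' with hv
    have hu' : u' = u * v := by rw [hv, mul_inv_cancel_left]
    obtain ⟨l, hl, hlW⟩ : ∃ l ∈ v.toWord, l.1 ∉ W := by
      by_contra h2
      push Not at h2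
      apply hcon
      rw [← FreeGroup.mk_toWord (x := v)]
      exact mem_FW_of_letters W _ h2
    obtain ⟨P, R, hPR⟩ := List.append_of_mem hl
    have hred : FreeGroup.IsReduced (P ++ l :: R) := by
      rw [← hPR]; exact FreeGroup.isReduced_toWord
    have hredP : FreeGroup.IsReduced P := isReduced_append_left hred
    have hredR : FreeGroup.IsReduced (l :: R) := isReduced_append_right hred
    have hvm : v = FreeGroup.mk P * FreeGroup.mk (l :: R) := by
      rw [FreeGroup.mul_mk, ← hPR, FreeGroup.mk_toWord]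
    obtain ⟨y, b⟩ := l
    cases b with
    | true =>
      have h3 := h y hlW (u * FreeGroup.mk P)
      have h4 : u' ∈ Hs (u * FreeGroup.mk P) y := by
        change ((u * FreeGroup.mk P)⁻¹ * u').toWord.head? = _
        have h5 : (u * FreeGroup.mk P)⁻¹ * u' = FreeGroup.mk ((y, true) :: R) := by
          rw [hu', hvm]; group
        rw [h5, word_of_reduced hredR]
        rfl
      have h6 := h3.2 h4
      change ((u * FreeGroup.mk P)⁻¹ * u).toWord.head? = _ at h6
      have h7 : (u * FreeGroup.mk P)⁻¹ * u = (FreeGroup.mk P)⁻¹ := by group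
      rw [h7, FreeGroup.toWord_inv, word_of_reduced hredP, head_invRev] at h6
      have h8 := isReduced_last hred h6 rfl
      simp at h8
    | false =>
      have h3 := h y hlW (u * FreeGroup.mk P * (FreeGroup.of y)⁻¹)
      have h4 : u' ∉ Hs (u * FreeGroup.mk P * (FreeGroup.of y)⁻¹) y := by
        intro h5
        change ((u * FreeGroup.mk P * (FreeGroup.of y)⁻¹)⁻¹ * u').toWord.head? = _ at h5
        have h6 : (u * FreeGroup.mk P * (FreeGroup.of y)⁻¹)⁻¹ * u' = FreeGroup.mk R := by
          have h7 : FreeGroup.mk ((y, false) :: R) = (FreeGroup.of y)⁻¹ * FreeGroup.mk R := by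
            rw [mk_cons]; rfl
          rw [hu', hvm, h7]; group
        have hR : FreeGroup.IsReduced R := Q32.LR2.rsub hredR ⟨[(y, false)], [], by simp⟩
        rw [h6, word_of_reduced hR] at h5
        cases R with
        | nil => simp at h5
        | cons r R' =>
          simp only [List.head?_cons, Option.some.injEq] at h5
          subst h5
          have h8 := (FreeGroup.isReduced_cons_cons.1 hredR).1 rfl
          simp at h8
      have h9 : u ∈ Hs (u * FreeGroup.mk P * (FreeGroup.of y)⁻¹) y := by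
        change ((u * FreeGroup.mk P * (FreeGroup.of y)⁻¹)⁻¹ * u).toWord.head? = _
        have h10 : (u * FreeGroup.mk P * (FreeGroup.of y)⁻¹)⁻¹ * u =
            (FreeGroup.mk (P ++ [(y, false)]))⁻¹ := by
          have h11 : FreeGroup.mk (P ++ [(y, false)]) = FreeGroup.mk P * (FreeGroup.of y)⁻¹ := by
            rw [← FreeGroup.mul_mk]; rfl
          rw [h11]; group
        have hP2 : FreeGroup.IsReduced (P ++ [(y, false)]) := Q32.LR2.rsub hred ⟨[], R, by simp⟩
        rw [h10, FreeGroup.toWord_inv, word_of_reduced hP2, head_invRev]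
        simp
      exact h4 (h3.1 h9)

end Q190.LR2
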