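import Pool.Agent.Q32.LR2.CpF0

/-!
(Copy of Pool/Agent/Q102/LR2/F3.lean with one Mathlib lemma replaced by Q32.LR2.rsub.)

# Project LR2 (helper32), job F3: half spaces are nested and determine their edge
-/

set_option autoImplicit false

namespace Pool.Agent.Q102.LR2

open Q32.LR2 FreeGroup
open Pointwise

variable {Y : Type} [DecidableEq Y]

theorem end_mem (g : FreeGroup Y) (y : Y) : g * FreeGroup.of y ∈ Hs g y := by
  rw [mem_Hs, inv_mul_cancel_left, toWord_of]
  rfl

theorem base_not_mem (g : FreeGroup Y) (y : Y) : g ∉ Hs g y := by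
  rw [mem_Hs, inv_mul_cancel, toWord_one]
  simp

theorem mk_inv_letter (w : FreeGroup Y) (l : Y × Bool) :
    w * FreeGroup.mk [l] * FreeGroup.mk [(l.1, !l.2)] = w := by
  rw [mul_assoc]
  have : FreeGroup.mk [l] * FreeGroup.mk [(l.1, !l.2)] = (1 : FreeGroup Y) := by
    rw [mul_mk]
    have h3 : Red.Step ([] ++ (l.1, l.2) :: (l.1, !l.2) :: []) ([] ++ []) := Red.Step.not
    exact Quot.sound h3
  rw [this, mul_one]

/-- an edge which crosses the half space `Hs g y` contains `g` -/
theorem cross_base {g w : FreeGroup Y} {y : Y} {l : Y × Bool}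
    (h : ¬ (w ∈ Hs g y ↔ w * FreeGroup.mk [l] ∈ Hs g y)) : w = g ∨ w * FreeGroup.mk [l] = g := by
  by_cases h1 : w ∈ Hs g y
  · have h2 : w * FreeGroup.mk [l] ∉ Hs g y := fun h2 => h ⟨fun _ => h2, fun _ => h1⟩
    obtain ⟨e1, e2⟩ := s_F0 Y w g y l h1 h2
    right
    rw [e1, e2, mul_assoc]
    have : FreeGroup.of y * FreeGroup.mk [(y, false)] = (1 : FreeGroup Y) := by
      have := mk_inv_letter (1 : FreeGroup Y) (y, true)
      rw [one_mul] at this
      exact this
    rw [this, mul_one]
  · have h2 : w * FreeGroup.mk [l] ∈ Hs g y := by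
      by_contra h2
      exact h ⟨fun h3 => absurd h3 h1, fun h3 => absurd h3 h2⟩
    have h3 := mk_inv_letter w l
    obtain ⟨e1, e2⟩ := s_F0 Y (w * FreeGroup.mk [l]) g y (l.1, !l.2) h2 (by rw [h3]; exact h1)
    left
    rw [e1, e2, mul_assoc] at h3
    have : FreeGroup.of y * FreeGroup.mk [(y, false)] = (1 : FreeGroup Y) := by
      have := mk_inv_letter (1 : FreeGroup Y) (y, true)
      rw [one_mul] at this
      exact this
    rw [this, mul_one] at h3
    exact h3.symm

theorem mk_append_singleton (L : List (Y × Bool)) (x : Y × Bool) :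
    FreeGroup.mk (L ++ [x]) = FreeGroup.mk L * FreeGroup.mk [x] := by rw [mul_mk]

/-- induction inside a half space -/
theorem ind_in (g : FreeGroup Y) (y : Y) (P : FreeGroup Y → Prop) (h0 : P (g * FreeGroup.of y))
    (hs : ∀ w l, w ∈ Hs g y → w * FreeGroup.mk [l] ∈ Hs g y → P w → P (w * FreeGroup.mk [l])) :
    ∀ u ∈ Hs g y, P u := by
  have key : ∀ R : List (Y × Bool), IsReduced ((y, true) :: R) →
      P (g * FreeGroup.mk ((y, true) :: R)) := by
    intro R
    induction R using List.reverseRecOn with
    | nil => intro _; exact h0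
    | append_singleton R x ih =>
      intro hr
      have hr' : IsReduced ((y, true) :: R) := Q32.LR2.rsub hr ⟨[], [x], by simp⟩
      have e : g * FreeGroup.mk ((y, true) :: (R ++ [x])) =
          g * FreeGroup.mk ((y, true) :: R) * FreeGroup.mk [x] := by
        rw [← List.cons_append, mk_append_singleton, mul_assoc]
      rw [e]
      refine hs _ _ ?_ ?_ (ih hr')
      · rw [mem_Hs, inv_mul_cancel_left, toWord_mk, hr'.reduce_eq]; rfl
      · rw [← e, mem_Hs, inv_mul_cancel_left, toWord_mk, hr.reduce_eq]; rfl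
  intro u hu
  rw [mem_Hs] at hu
  rcases hL : (g⁻¹ * u).toWord with _ | ⟨a, R⟩
  · rw [hL] at hu; simp at hu
  · rw [hL, List.head?_cons, Option.some.injEq] at hu
    have hr : IsReduced ((y, true) :: R) := by
      rw [← hu, ← hL]; exact isReduced_toWord
    have := key R hr
    rw [← hu, ← hL, mk_toWord, mul_inv_cancel_left] at this
    exact this

/-- induction outside a half space -/
theorem ind_out (g : FreeGroup Y) (y : Y) (P : FreeGroup Y → Prop) (h0 : P g)
    (hs : ∀ w l, w ∉ Hs g y → w * FreeGroup.mk [l] ∉ Hs g y → P w → P (w * FreeGroup.mk [l])) :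
    ∀ u, u ∉ Hs g y → P u := by
  have key : ∀ R : List (Y × Bool), IsReduced R → R.head? ≠ some (y, true) →
      P (g * FreeGroup.mk R) := by
    intro R
    induction R using List.reverseRecOn with
    | nil =>
      intro _ _
      rw [← one_eq_mk, mul_one]; exact h0
    | append_singleton R x ih =>
      intro hr hh
      have hr' : IsReduced R := Q32.LR2.rsub hr ⟨[], [x], by simp⟩
      have hh' : R.head? ≠ some (y, true) := by
        intro h
        apply hh
        rcases R with _ | ⟨a, R⟩
        · simp at h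
        · simpa using h
      have e : g * FreeGroup.mk (R ++ [x]) = g * FreeGroup.mk R * FreeGroup.mk [x] := by
        rw [mk_append_singleton, mul_assoc]
      rw [e]
      refine hs _ _ ?_ ?_ (ih hr' hh')
      · rw [mem_Hs, inv_mul_cancel_left, toWord_mk, hr'.reduce_eq]; exact hh'
      · rw [← e, mem_Hs, inv_mul_cancel_left, toWord_mk, hr.reduce_eq]; exact hh
  intro u hu
  rw [mem_Hs] at hu
  have := key (g⁻¹ * u).toWord isReduced_toWord hu
  rw [mk_toWord, mul_inv_cancel_left] at this
  exact this

theorem nested (g g' : FreeGroup Y) (y y' : Y) : Nst (Hs g y) (Hs g' y') := by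
  by_cases hg : g ∈ Hs g' y'
  · -- outside `D'` the membership in `D` is constant
    have key : ∀ u, u ∉ Hs g' y' → (u ∈ Hs g y ↔ g' ∈ Hs g y) := by
      refine ind_out g' y' _ Iff.rfl fun w l h1 h2 hP => ?_
      rw [← hP]
      by_contra h
      rcases cross_base (l := l) (w := w) (g := g) (y := y) (fun h3 => h h3.symm) with h3 | h3
      · rw [h3] at h1; exact h1 hg
      · rw [h3] at h2; exact h2 hg
    by_cases h : g' ∈ Hs g y
    · -- D'ᶜ ⊆ D
      right; right; left
      intro u hu
      by_contra h1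
      exact hu ((key u h1).2 h)
    · left
      intro u hu
      by_contra h1
      exact h ((key u h1).1 hu)
  · have key : ∀ u ∈ Hs g' y', (u ∈ Hs g y ↔ g' * FreeGroup.of y' ∈ Hs g y) := by
      refine ind_in g' y' _ Iff.rfl fun w l h1 h2 hP => ?_
      rw [← hP]
      by_contra h
      rcases cross_base (l := l) (w := w) (g := g) (y := y) (fun h3 => h h3.symm) with h3 | h3
      · rw [h3] at h1; exact hg h1
      · rw [h3] at h2; exact hg h2
    by_cases h : g' * FreeGroup.of y' ∈ Hs g y
    · -- D' ⊆ D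
      right; right; right
      intro u hu h1
      exact hu ((key u h1).2 h)
    · right; left
      intro u hu h1
      exact h ((key u h1).1 hu)

theorem s_F3' : S_F3 := by
  intro _ Y _ g g' y y'
  refine ⟨nested g g' y y', ?_, ?_, ⟨_, end_mem g y⟩, ⟨g, base_not_mem g y⟩⟩
  · intro h
    have h1 := end_mem g y
    have h2 : g * FreeGroup.of y * FreeGroup.mk [(y, false)] = g := mk_inv_letter g (y, true)
    have h3 : g * FreeGroup.of y * FreeGroup.mk [(y, false)] ∉ Hs g' y' := by
      rw [h2, ← h]; exact base_not_mem g y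
    rw [h] at h1
    obtain ⟨e1, e2⟩ := s_F0 Y _ g' y' (y, false) h1 h3
    have e3 : y = y' := (Prod.mk.inj e2).1
    subst e3
    exact ⟨mul_right_cancel e1, rfl⟩
  · ext u
    rw [Set.mem_smul_set_iff_inv_smul_mem, mem_Hs, mem_Hs, smul_eq_mul, mul_inv_rev, mul_assoc]

theorem s_F3 : S_F3 := s_F3'

end Pool.Agent.Q102.LR2
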