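import Pool.Agent.TH97.VR.Dual

/-!
# Project LR2: property (LR) for all virtually free groups. Definitions.
-/

set_option autoImplicit false

namespace Q32.LR2

open Pool.Agent.H97R3.VR Pool.Agent.TH97.VR
open Pointwise

/-! ### cuts -/

section cuts

variable {V : Type}

/-- the oriented edges of `X` leaving `U` -/
def cob (X : SimpleGraph V) (U : Set V) : Set (V × V) := {p | X.Adj p.1 p.2 ∧ p.1 ∈ U ∧ p.2 ∉ U}

/-- `U` is connected -/
def Cn (X : SimpleGraph V) (U : Set V) : Prop :=
  ∀ W ⊆ U, W.Nonempty → (∀ a ∈ W, ∀ b ∈ U, X.Adj a b → b ∈ W) → W = U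

/-- `U` and its complement are connected -/
def Thin (X : SimpleGraph V) (U : Set V) : Prop := Cn X U ∧ Cn X Uᶜ

/-- nested sets -/
def Nst (U W : Set V) : Prop := U ⊆ W ∨ U ⊆ Wᶜ ∨ Uᶜ ⊆ W ∨ Uᶜ ⊆ Wᶜ

/-- `W` separates the ultrafilters `p` and `q` -/
def Sp (p q : Ultrafilter V) (W : Set V) : Prop := (W ∈ p ∧ W ∉ q) ∨ (W ∉ p ∧ W ∈ q)

/-- no cut with fewer than `n` edges separates `p` and `q` -/
def Lo (X : SimpleGraph V) (n : ℕ) (p q : Ultrafilter V) : Prop :=
  ∀ W, Sp p q W → (cob X W).Finite → n ≤ (cob X W).ncard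

/-- the minimal cuts with `n` edges -/
def MC (X : SimpleGraph V) (P : Set (Ultrafilter V)) (n : ℕ) : Set (Set V) :=
  {U | (cob X U).Finite ∧ (cob X U).ncard = n ∧ ∃ p ∈ P, ∃ q ∈ P, Sp p q U ∧ Lo X n p q}

/-- the minimal cuts with `n` edges nested with all members of `B` -/
def NC (X : SimpleGraph V) (P : Set (Ultrafilter V)) (n : ℕ) (B : Set (Set V)) : Set (Set V) :=
  {U | U ∈ MC X P n ∧ ∀ W ∈ B, Nst U W}

/-- the members of `N` crossing `U` -/
def cr (N : Set (Set V)) (U : Set V) : Set (Set V) := {Z | Z ∈ N ∧ ¬ Nst U Z}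

/-- the optimally nested minimal cuts with `n` edges -/
def New (X : SimpleGraph V) (P : Set (Ultrafilter V)) (n : ℕ) (B : Set (Set V)) : Set (Set V) :=
  {U | U ∈ NC X P n B ∧ ∃ p ∈ P, ∃ q ∈ P, Sp p q U ∧ Lo X n p q ∧
    ∀ W ∈ NC X P n B, Sp p q W → (cr (NC X P n B) U).ncard ≤ (cr (NC X P n B) W).ncard}

/-- the optimally nested cuts with fewer than `n` edges -/
def Cum (X : SimpleGraph V) (P : Set (Ultrafilter V)) : ℕ → Set (Set V)
  | 0 => ∅
  | n + 1 => Cum X P n ∪ New X P n (Cum X P n)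

/-- good families: closed under complement, nested, consisting of minimal cuts with fewer than `n`
edges which separate all pairs which can be separated by fewer than `n` edges -/
structure Good (X : SimpleGraph V) (P : Set (Ultrafilter V)) (n : ℕ) (B : Set (Set V)) : Prop where
  compl : ∀ U ∈ B, Uᶜ ∈ B
  nst : ∀ U ∈ B, ∀ W ∈ B, Nst U W
  mc : ∀ U ∈ B, ∃ m < n, U ∈ MC X P m
  sep : ∀ p ∈ P, ∀ q ∈ P, (∃ W, Sp p q W ∧ (cob X W).Finite ∧ (cob X W).ncard < n) →
    ∃ U ∈ B, Sp p q U

end cuts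

/-! ### trees -/

/-- trees: median graphs in which a vertex between `x` and `y` is between `x` and `o` or between `o`
and `y`, for every vertex `o` -/
structure IsTr {C : Type} (T : SimpleGraph C) : Prop where
  med : IsMedian T
  tri : ∀ x y z o : C, Btw T x y z → Btw T x o z ∨ Btw T o y z

section homs

variable {Γ Q M : Type} [Group Γ] [Group Q] [Group M]

/-- `f` is multiplicative on `L` -/
def HomOn (L : Subgroup Γ) (f : Γ → M) : Prop := ∀ a ∈ L, ∀ b ∈ L, f (a * b) = f a * f b

/-- `f` maps every finite subgroup of `L` to a conjugate of its image under `s ∘ π` -/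
def Pr (π : Γ →* Q) (s : Q →* M) (L : Subgroup Γ) (f : Γ → M) : Prop :=
  ∀ E : Subgroup Γ, Finite E → E ≤ L → ∃ n : M, ∀ g ∈ E, f g = n⁻¹ * s (π g) * n

/-- the graph on the cosets of `L` with edges from `g L` to `g s L` -/
def cosetG (L : Subgroup Γ) (S : Set Γ) : SimpleGraph (Γ ⧸ L) where
  Adj x y := x ≠ y ∧ ∃ g : Γ, ∃ s ∈ S,
    (x = (g : Γ ⧸ L) ∧ y = ((g * s : Γ) : Γ ⧸ L)) ∨ (y = (g : Γ ⧸ L) ∧ x = ((g * s : Γ) : Γ ⧸ L))
  symm := ⟨fun _ _ h => ⟨h.1.symm, by
    obtain ⟨g, s, hs, h2 | h2⟩ := h.2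
    · exact ⟨g, s, hs, Or.inr h2⟩
    · exact ⟨g, s, hs, Or.inl h2⟩⟩⟩
  loopless := ⟨fun _ h => h.1 rfl⟩

end homs

/-! ### free groups -/

section free

variable {Y : Type}

/-- permutations of the letters act on the free group -/
def permAut (Y : Type) : Equiv.Perm Y →* MulAut (FreeGroup Y) where
  toFun σ := FreeGroup.freeGroupCongr σ
  map_one' := by
    ext x
    induction x using FreeGroup.induction_on with
    | C1 => simp
    | of a => simp
    | inv_of a _ => simp
    | mul x y hx hy => rw [map_mul, map_mul, hx, hy]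
  map_mul' σ τ := by
    ext x
    induction x using FreeGroup.induction_on with
    | C1 => simp
    | of a => simp
    | inv_of a _ => simp
    | mul x y hx hy => rw [map_mul, map_mul, hx, hy]

variable [DecidableEq Y]

/-- the reduced words starting with `y` -/
def St (y : Y) : Set (FreeGroup Y) := {v | v.toWord.head? = some (y, true)}

/-- the half space of the Cayley tree behind the edge from `g` to `g y` -/
def Hs (g : FreeGroup Y) (y : Y) : Set (FreeGroup Y) := {u | g⁻¹ * u ∈ St y}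

/-- the subgroup generated by the letters in `W` -/
def FW (W : Set Y) : Subgroup (FreeGroup Y) := Subgroup.closure (FreeGroup.of '' W)

end free

/-! ### the subgroups of `G` -/

section sub

variable {G Y : Type} [Group G] (F H : Subgroup G) (e : F ≃* FreeGroup Y)

/-- the subgroup of `F` generated by the letters in `W` -/
def BB (W : Set Y) : Subgroup G := ((FW W).comap (e : F →* FreeGroup Y)).map F.subtype

/-- the intersection of the conjugates of `BB W` by the elements of `H` -/
def AA (W : Set Y) : Subgroup G where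
  carrier := {g | ∀ h ∈ H, h⁻¹ * g * h ∈ BB F e W}
  one_mem' := by
    intro h _
    rw [mul_one, inv_mul_cancel]
    exact Subgroup.one_mem _
  mul_mem' := by
    intro a b ha hb h hh
    have e1 : h⁻¹ * (a * b) * h = (h⁻¹ * a * h) * (h⁻¹ * b * h) := by group
    rw [e1]
    exact Subgroup.mul_mem _ (ha h hh) (hb h hh)
  inv_mem' := by
    intro a ha h hh
    have e1 : h⁻¹ * a⁻¹ * h = (h⁻¹ * a * h)⁻¹ := by group
    rw [e1]
    exact Subgroup.inv_mem _ (ha h hh)

/-- the subgroup generated by `H` and `AA W` -/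
def LL (W : Set Y) : Subgroup G := H ⊔ AA F H e W

/-- `BB Z` is invariant under `H` -/
def Clo (Z : Set Y) : Prop := ∀ h ∈ H, ∀ g ∈ BB F e Z, h * g * h⁻¹ ∈ BB F e Z

end sub

end Q32.LR2
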