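import Pool.Agent.Q32.LR2.Stm

/-!
# Project LR2: the relative extension
-/

set_option autoImplicit false

namespace Q32.LR2

open Pool.Agent.H97R3.VR Pool.Agent.TH97.VR
open Pointwise

section

variable {Γ : Type} [Group Γ] {L : Subgroup Γ} {S : Set Γ}

theorem coset_reach (hgen : L ⊔ Subgroup.closure S = ⊤) (a g : Γ) :
    (cosetG L S).Reachable (a : Γ ⧸ L) ((a * g : Γ) : Γ ⧸ L) := by
  have hg : g ∈ L ⊔ Subgroup.closure S := by
    rw [hgen]
    exact Subgroup.mem_top g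
  rw [← Subgroup.closure_eq L, ← Subgroup.closure_union] at hg
  induction hg using Subgroup.closure_induction generalizing a with
  | mem x hx =>
    rcases hx with hx | hx
    · have : ((a * x : Γ) : Γ ⧸ L) = (a : Γ ⧸ L) := QuotientGroup.mk_mul_of_mem a hx
      rw [this]
    · by_cases he : (a : Γ ⧸ L) = ((a * x : Γ) : Γ ⧸ L)
      · rw [← he]
      · exact SimpleGraph.Adj.reachable (G := cosetG L S) ⟨he, a, x, hx, Or.inl ⟨rfl, rfl⟩⟩
  | one => rw [mul_one]
  | mul x y _ _ hx hy =>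
    rw [← mul_assoc]
    exact (hx a).trans (hy _)
  | inv x _ hx =>
    have h := hx (a * x⁻¹)
    rw [inv_mul_cancel_right] at h
    exact h.symm

theorem coset_conn (hgen : L ⊔ Subgroup.closure S = ⊤) : (cosetG L S).Connected := by
  have : Nonempty (Γ ⧸ L) := ⟨((1 : Γ) : Γ ⧸ L)⟩
  refine SimpleGraph.Connected.mk fun x y => ?_
  obtain ⟨a, rfl⟩ := QuotientGroup.mk_surjective x
  obtain ⟨b, rfl⟩ := QuotientGroup.mk_surjective y
  have h := coset_reach hgen a (a⁻¹ * b)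
  rwa [mul_inv_cancel_left] at h

theorem coset_adj (g : Γ) {x y : Γ ⧸ L} (h : (cosetG L S).Adj x y) :
    (cosetG L S).Adj (g • x) (g • y) := by
  obtain ⟨h1, a, s, hs, h2⟩ := h
  refine ⟨fun h => h1 (smul_left_cancel g h), g * a, s, hs, ?_⟩
  rcases h2 with ⟨rfl, rfl⟩ | ⟨rfl, rfl⟩
  · exact Or.inl ⟨rfl, by rw [mul_assoc]; rfl⟩
  · exact Or.inr ⟨rfl, by rw [mul_assoc]; rfl⟩

theorem coset_fix {a k : Γ} (h : k • (a : Γ ⧸ L) = (a : Γ ⧸ L)) : a⁻¹ * k * a ∈ L := by
  have h1 : ((k * a : Γ) : Γ ⧸ L) = (a : Γ ⧸ L) := h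
  have h2 := QuotientGroup.eq.1 h1.symm
  rwa [← mul_assoc] at h2

/-- a power of a translation preserving a finite nonempty set fixes an element of it -/
theorem pow_fix {A : Type} [MulAction Γ A] {k : Γ} {F : Set A} (hF : F.Finite) {p : A}
    (hp : p ∈ F) (hk : ∀ q ∈ F, k • q ∈ F) : ∃ j : ℕ, 0 < j ∧ k ^ j • p = p := by
  have hmem : ∀ n : ℕ, k ^ n • p ∈ F := by
    intro n
    induction n with
    | zero => rw [pow_zero, one_smul]; exact hp
    | succ n ih => rw [pow_succ', mul_smul]; exact hk _ ih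
  have : Finite F := hF
  obtain ⟨m, n, hmn, h⟩ := Finite.exists_ne_map_eq_of_infinite
    (fun n : ℕ => (⟨k ^ n • p, hmem n⟩ : F))
  have h' : k ^ m • p = k ^ n • p := congrArg Subtype.val h
  rcases lt_or_gt_of_ne hmn with hlt | hlt
  · refine ⟨n - m, by omega, ?_⟩
    have e : k ^ n = k ^ m * k ^ (n - m) := by rw [← pow_add]; congr 1; omega
    rw [e, mul_smul] at h'
    exact (smul_left_cancel _ h').symm
  · refine ⟨m - n, by omega, ?_⟩
    have e : k ^ m = k ^ n * k ^ (m - n) := by rw [← pow_add]; congr 1; omega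
    rw [e, mul_smul] at h'
    exact smul_left_cancel _ h'

end

theorem rel : S_REL := by
  intro nest tree fix nb ext Γ Q M _ _ _ _ π s L S hgen hsurj htf hmal hcut f hf hP
  obtain ⟨n0, hcut⟩ := hcut
  obtain ⟨B, hB, hnst, hcob, hsep, hinv⟩ :=
    nest (Γ ⧸ L) (cosetG L S) (coset_conn hgen) (Set.range pure) n0
  have hinv' : ∀ g : Γ, ∀ h ∈ B, g • h ∈ B := by
    intro g h hh
    have h1 := hinv (MulAction.toPerm g) ?_ ?_ ?_ h hh
    · exact h1
    · intro x y
      constructor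
      · intro h2
        have h3 := coset_adj g⁻¹ h2
        simp only [MulAction.toPerm_apply, inv_smul_smul] at h3
        exact h3
      · intro h2
        exact coset_adj g h2
    · rintro _ ⟨x, rfl⟩
      exact ⟨g • x, by rw [Ultrafilter.map_pure]; rfl⟩
    · rintro _ ⟨x, rfl⟩
      exact ⟨g⁻¹ • x, by rw [Ultrafilter.map_pure]; rfl⟩
  have hsep' : ∀ x y : Γ ⧸ L, (∀ h ∈ B, (x ∈ h ↔ y ∈ h)) → x = y := by
    intro x y h
    by_contra hne
    obtain ⟨D, d1, d2, d3⟩ := hcut x y hne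
    obtain ⟨U, hU, hU2⟩ := hsep (pure x) ⟨x, rfl⟩ (pure y) ⟨y, rfl⟩ D d1 d2 (by
      unfold Sp
      simpa [Ultrafilter.mem_pure] using d3)
    unfold Sp at hU2
    simp only [Ultrafilter.mem_pure] at hU2
    have := h U hU
    tauto
  obtain ⟨C, act, T, pt, hT, hact, hpt, heq, hedge, -⟩ := tree (Γ ⧸ L) Γ B
    ⟨((1 : Γ) : Γ ⧸ L)⟩ hB hnst hinv'
  letI := act
  have hstab : ∀ g : Γ, g ∈ L ↔ g • pt ((1 : Γ) : Γ ⧸ L) = pt ((1 : Γ) : Γ ⧸ L) := by
    intro g
    rw [hpt]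
    have e1 : g • ((1 : Γ) : Γ ⧸ L) = (g : Γ ⧸ L) := by
      show ((g * 1 : Γ) : Γ ⧸ L) = _
      rw [mul_one]
    rw [e1]
    constructor
    · intro hg
      have e2 : (g : Γ ⧸ L) = ((1 : Γ) : Γ ⧸ L) := by
        rw [eq_comm, QuotientGroup.eq, inv_one, one_mul]
        exact hg
      rw [e2]
    · intro h
      have h2 := hsep' _ _ ((heq _ _).1 h)
      rw [eq_comm, QuotientGroup.eq, inv_one, one_mul] at h2
      exact h2
  obtain ⟨φ, h1, h2⟩ := ext fix nb Γ Q M C T hT hact π s (pt ((1 : Γ) : Γ ⧸ L)) L hstab hsurj f hf (by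
    intro y hy
    obtain ⟨h, hh, hfix⟩ := hedge _ _ hy
    have hker : ∀ k ∈ L ⊓ MulAction.stabilizer Γ h, k ∈ π.ker → k = 1 := by
      intro k hk hk2
      obtain ⟨⟨⟨x, y⟩, hxy⟩⟩ : Nonempty (cob (cosetG L S) h) := (hcob h hh).2.to_subtype
      have hkh : k • h = h := hk.2
      obtain ⟨j, hj, hj2⟩ := pow_fix (k := k) (hcob h hh).1 hxy (by
        rintro ⟨x, y⟩ ⟨q1, q2, q3⟩
        refine ⟨coset_adj k q1, ?_, ?_⟩
        · rw [← hkh]
          exact Set.smul_mem_smul_set q2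
        · rw [← hkh]
          intro q4
          exact q3 ((Set.smul_mem_smul_set_iff).1 q4))
      obtain ⟨a, rfl⟩ := QuotientGroup.mk_surjective x
      obtain ⟨b, rfl⟩ := QuotientGroup.mk_surjective y
      have e1 : k ^ j • ((a : Γ) : Γ ⧸ L) = (a : Γ ⧸ L) := congrArg Prod.fst hj2
      have e2 : k ^ j • ((b : Γ) : Γ ⧸ L) = (b : Γ ⧸ L) := congrArg Prod.snd hj2
      have f1 := coset_fix e1
      have f2 := coset_fix e2
      have hc : a⁻¹ * b ∉ L := fun hc => hxy.1.1 (QuotientGroup.eq.2 hc)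
      have hkj : a⁻¹ * k ^ j * a ∈ π.ker := by
        have := (inferInstance : π.ker.Normal).conj_mem (k ^ j) (π.ker.pow_mem hk2 j) a⁻¹
        rwa [inv_inv] at this
      have f3 := hmal _ hc _ hkj f1 (by
        have e3 : (a⁻¹ * b)⁻¹ * (a⁻¹ * k ^ j * a) * (a⁻¹ * b) = b⁻¹ * k ^ j * b := by group
        rw [e3]
        exact f2)
      have f4 : k ^ j = 1 := by
        have e4 : k ^ j = a * (a⁻¹ * k ^ j * a) * a⁻¹ := by group
        rw [e4, f3]
        group
      exact htf k hk2 j hj f4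
    have hfin : Finite (L ⊓ MulAction.stabilizer Γ h : Subgroup Γ) := by
      refine Finite.of_injective (π.comp (L ⊓ MulAction.stabilizer Γ h : Subgroup Γ).subtype) ?_
      rw [injective_iff_map_eq_one]
      rintro ⟨k, hk⟩ hk2
      exact Subtype.ext (hker k hk hk2)
    obtain ⟨n, hn⟩ := hP _ hfin inf_le_left
    refine ⟨n, fun g hg hgy => hn g ⟨hg, ?_⟩⟩
    exact hfix g ((hstab g).1 hg) hgy)
  exact ⟨φ, h1, h2 hP⟩

end Q32.LR2
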