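import Pool.Agent.Q32.LR2.Stm

/-!
# Project LR2: retractions
-/

set_option autoImplicit false

namespace Q32.LR2

open Pool.Agent.H97R3.VR Pool.Agent.TH97.VR
open Pointwise

theorem ret : S_RET := by
  intro f0 f1 f2 f3 tree fix nb ext Y _ W C
  have F1 := f1 f0 Y
  have F2 := f2 f0 Y W
  have F3 := f3 f0 Y
  -- the system of half spaces
  let B : Set (Set (FreeGroup Y)) := {h | ∃ g y, y ∉ W ∧ (h = Hs g y ∨ h = (Hs g y)ᶜ)}
  have hB : HSys B := by
    refine ⟨?_, ?_, ?_⟩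
    · rintro h ⟨g, y, hy, rfl | rfl⟩
      · exact ⟨g, y, hy, Or.inr rfl⟩
      · exact ⟨g, y, hy, Or.inl (compl_compl _)⟩
    · rintro h ⟨g, y, -, rfl | rfl⟩
      · exact (F3 g g y y).2.2.2.1
      · exact (F3 g g y y).2.2.2.2
    · intro a b
      refine (((F1.2 a b).image fun p => Hs p.1 p.2).union
        ((F1.2 b a).image fun p => (Hs p.1 p.2)ᶜ)).subset ?_
      rintro h ⟨⟨g, y, -, rfl | rfl⟩, h1, h2⟩
      · exact Or.inl ⟨(g, y), ⟨h1, h2⟩, rfl⟩
      · exact Or.inr ⟨(g, y), ⟨by simpa using h2, h1⟩, rfl⟩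
  have hnc : ∀ U V : Set (FreeGroup Y), Nst U V → Nst Uᶜ V := by
    intro U V h
    unfold Nst at h ⊢
    rw [compl_compl]
    tauto
  have hnc' : ∀ U V : Set (FreeGroup Y), Nst U V → Nst U Vᶜ := by
    intro U V h
    unfold Nst at h ⊢
    rw [compl_compl]
    tauto
  have hnst : ∀ h ∈ B, ∀ k ∈ B, Nst h k := by
    rintro h ⟨g, y, -, rfl | rfl⟩ k ⟨g', y', -, rfl | rfl⟩
    · exact (F3 g g' y y').1
    · exact hnc' _ _ (F3 g g' y y').1
    · exact hnc _ _ (F3 g g' y y').1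
    · exact hnc _ _ (hnc' _ _ (F3 g g' y y').1)
  have hsmul : ∀ (c : C) (g : FreeGroup Y) (y : Y), c • Hs g y = Hs ((c : FreeGroup Y) * g) y := by
    intro c g y
    exact (F3 g (c : FreeGroup Y) y y).2.2.1
  have hinv : ∀ c : C, ∀ h ∈ B, c • h ∈ B := by
    rintro c h ⟨g, y, hy, rfl | rfl⟩
    · exact ⟨(c : FreeGroup Y) * g, y, hy, Or.inl (hsmul c g y)⟩
    · exact ⟨(c : FreeGroup Y) * g, y, hy, Or.inr (by rw [Set.smul_set_compl, hsmul])⟩
  obtain ⟨T0, act, T, pt, hT, hact, hpt, heq, hedge, -⟩ := tree (FreeGroup Y) C B ⟨1⟩ hB hnst hinv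
  letI := act
  let L : Subgroup C := MulAction.stabilizer C (pt (1 : FreeGroup Y))
  have hL : ∀ c : C, c ∈ L ↔ (c : FreeGroup Y) ∈ FW W := by
    intro c
    have e1 : c ∈ L ↔ pt (c : FreeGroup Y) = pt 1 := by
      show c • pt (1 : FreeGroup Y) = pt 1 ↔ _
      rw [hpt]
      have : c • (1 : FreeGroup Y) = (c : FreeGroup Y) := mul_one (c : FreeGroup Y)
      rw [this]
    have e2 := F2 1 (c : FreeGroup Y)
    rw [inv_one, one_mul] at e2
    rw [e1, e2, heq]
    constructor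
    · intro h y hy g
      exact (h _ ⟨g, y, hy, Or.inl rfl⟩).symm
    · rintro h k ⟨g, y, hy, rfl | rfl⟩
      · exact (h y hy g).symm
      · rw [Set.mem_compl_iff, Set.mem_compl_iff, h y hy g]
  classical
  let f : C → L := fun c => if hc : c ∈ L then ⟨c, hc⟩ else 1
  have hf : ∀ c (hc : c ∈ L), f c = ⟨c, hc⟩ := fun c hc => dif_pos hc
  obtain ⟨φ, h1, -⟩ := ext fix nb C PUnit L T0 T hT hact 1 1 (pt 1) L
    (fun g => MulAction.mem_stabilizer_iff)
    (fun g => ⟨g, by rw [MonoidHom.mem_ker, MonoidHom.one_apply], 1, L.one_mem, (mul_one g).symm⟩) f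
    (by
      intro a ha b hb
      rw [hf a ha, hf b hb, hf _ (L.mul_mem ha hb)]
      rfl)
    (by
      intro y hy
      refine ⟨1, fun g hg hgy => ?_⟩
      obtain ⟨h, ⟨k, z, -, hh⟩, hfix⟩ := hedge _ _ hy
      have e1 := hfix g (MulAction.mem_stabilizer_iff.1 hg) hgy
      have e2 : g • Hs k z = Hs k z := by
        rcases hh with rfl | rfl
        · exact e1
        · rw [Set.smul_set_compl] at e1
          exact compl_injective e1
      rw [hsmul] at e2
      have e3 := ((F3 ((g : FreeGroup Y) * k) k z z).2.1 e2).1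
      have e4 : (g : FreeGroup Y) = 1 := by
        have := mul_eq_right.1 e3
        exact this
      have e5 : g = 1 := Subtype.ext e4
      subst e5
      rw [hf 1 L.one_mem]
      simp only [inv_one, MonoidHom.one_apply, mul_one]
      rfl)
  refine ⟨L.subtype.comp φ, fun c => ⟨(hL _).1 (φ c).2, fun hc => ?_⟩⟩
  have hc' := (hL c).2 hc
  show ((φ c : L) : C) = c
  rw [h1 c hc', hf c hc']

end Q32.LR2
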