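import Pool.Agent.Q32.LR2.Stm

/-!
# Project LR2: elementary facts on the subgroups
-/

set_option autoImplicit false

namespace Q32.LR2

open Pool.Agent.H97R3.VR Pool.Agent.TH97.VR
open Pointwise

section

variable {G Y : Type} [Group G] (F H : Subgroup G) (e : F ≃* FreeGroup Y)

theorem mem_BB (W : Set Y) (g : F) : (g : G) ∈ BB F e W ↔ e g ∈ FW W := by
  unfold BB
  rw [Subgroup.mem_map]
  constructor
  · rintro ⟨x, hx, hxg⟩
    have : x = g := Subtype.ext hxg
    subst this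
    exact hx
  · intro h
    exact ⟨g, h, rfl⟩

theorem BB_le (W : Set Y) : BB F e W ≤ F := by
  rintro _ ⟨x, -, rfl⟩
  exact x.2

theorem BB_mono {W W' : Set Y} (h : W ⊆ W') : BB F e W ≤ BB F e W' := by
  rintro _ ⟨x, hx, rfl⟩
  refine ⟨x, ?_, rfl⟩
  exact Subgroup.closure_mono (Set.image_mono h) hx

theorem AA_le (W : Set Y) : AA F H e W ≤ BB F e W := by
  intro g hg
  have := hg 1 H.one_mem
  rwa [inv_one, one_mul, mul_one] at this

theorem AA_mono {W W' : Set Y} (h : W ⊆ W') : AA F H e W ≤ AA F H e W' :=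
  fun _ hg k hk => BB_mono F e h (hg k hk)

theorem AA_conj (W : Set Y) {h : G} (hh : h ∈ H) {a : G} (ha : a ∈ AA F H e W) :
    h * a * h⁻¹ ∈ AA F H e W := by
  intro k hk
  have e1 : k⁻¹ * (h * a * h⁻¹) * k = (h⁻¹ * k)⁻¹ * a * (h⁻¹ * k) := by group
  rw [e1]
  exact ha _ (H.mul_mem (H.inv_mem hh) hk)

theorem mem_LL (W : Set Y) (g : G) :
    g ∈ LL F H e W ↔ ∃ a ∈ AA F H e W, ∃ h ∈ H, g = a * h := by
  constructor
  · intro hg
    let K : Subgroup G :=
      { carrier := {g | ∃ a ∈ AA F H e W, ∃ h ∈ H, g = a * h}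
        one_mem' := ⟨1, Subgroup.one_mem _, 1, H.one_mem, (mul_one 1).symm⟩
        mul_mem' := by
          rintro _ _ ⟨a, ha, h, hh, rfl⟩ ⟨b, hb, k, hk, rfl⟩
          refine ⟨a * (h * b * h⁻¹), Subgroup.mul_mem _ ha (AA_conj F H e W hh hb), h * k,
            H.mul_mem hh hk, ?_⟩
          group
        inv_mem' := by
          rintro _ ⟨a, ha, h, hh, rfl⟩
          refine ⟨h⁻¹ * a⁻¹ * h, ?_, h⁻¹, H.inv_mem hh, by group⟩
          have := AA_conj F H e W (H.inv_mem hh) (Subgroup.inv_mem _ ha)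
          rwa [inv_inv] at this }
    have h1 : LL F H e W ≤ K := by
      refine sup_le ?_ ?_
      · intro h hh
        exact ⟨1, Subgroup.one_mem _, h, hh, (one_mul h).symm⟩
      · intro a ha
        exact ⟨a, ha, 1, H.one_mem, (mul_one a).symm⟩
    exact h1 hg
  · rintro ⟨a, ha, h, hh, rfl⟩
    exact Subgroup.mul_mem _ (Subgroup.mem_sup_right ha) (Subgroup.mem_sup_left hh)

theorem FH_le [F.Normal] (W : Set Y) (h : F ⊓ H ≤ BB F e W) : F ⊓ H ≤ AA F H e W := by
  rintro g ⟨hg1, hg2⟩ k hk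
  apply h
  refine ⟨?_, H.mul_mem (H.mul_mem (H.inv_mem hk) hg2) hk⟩
  have := (inferInstance : F.Normal).conj_mem g hg1 k⁻¹
  rwa [inv_inv] at this

theorem F_LL [F.Normal] (W : Set Y) (h : F ⊓ H ≤ BB F e W) : F ⊓ LL F H e W = AA F H e W := by
  apply le_antisymm
  · rintro g ⟨hg1, hg2⟩
    obtain ⟨a, ha, k, hk, rfl⟩ := (mem_LL F H e W g).1 hg2
    have ha' : a ∈ F := BB_le F e W (AA_le F H e W ha)
    have hk' : k ∈ F := by
      have := F.mul_mem (F.inv_mem ha') hg1
      rwa [inv_mul_cancel_left] at this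
    exact Subgroup.mul_mem _ ha (FH_le F H e W h ⟨hk', hk⟩)
  · intro a ha
    exact ⟨BB_le F e W (AA_le F H e W ha), Subgroup.mem_sup_right ha⟩

theorem BB_eq (W : Set Y) (h : Clo F H e W) : BB F e W = AA F H e W := by
  apply le_antisymm
  · intro g hg k hk
    have := h k⁻¹ (H.inv_mem hk) g hg
    rwa [inv_inv] at this
  · exact AA_le F H e W

theorem AA_univ [F.Normal] : AA F H e Set.univ = F := by
  have hB : BB F e Set.univ = F := by
    apply le_antisymm (BB_le F e _)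
    intro g hg
    rw [mem_BB F e Set.univ ⟨g, hg⟩]
    unfold FW
    rw [Set.image_univ, FreeGroup.closure_range_of]
    exact Subgroup.mem_top _
  have hC : Clo F H e Set.univ := by
    intro h _ g hg
    rw [hB] at hg ⊢
    exact (inferInstance : F.Normal).conj_mem g hg h
  rw [← BB_eq F H e _ hC, hB]

end

theorem sub : S_SUB := by
  intro G Y _ F H _ e
  exact ⟨fun W g => mem_BB F e W g, BB_le F e, AA_le F H e,
    fun W W' h => ⟨AA_mono F H e h, BB_mono F e h⟩, fun W h hh a ha => AA_conj F H e W hh ha,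
    mem_LL F H e, FH_le F H e, F_LL F H e, BB_eq F H e, AA_univ F H e⟩

end Q32.LR2
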