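import Pool.Agent.Q32.LR2.Stm

/-!
# Project LR2: the dual tree of a nested invariant system of half spaces
-/

set_option autoImplicit false

namespace Q32.LR2

open Pool.Agent.H97R3.VR Pool.Agent.TH97.VR
open Pointwise

section

variable {P Γ : Type} [Group Γ] [MulAction Γ P] {B : Set (Set P)} {o : P}

/-- the action on vertices -/
def actV (S : HSys B) (hinv : ∀ g : Γ, ∀ h ∈ B, g • h ∈ B) (g : Γ) (σ : Vt B o) : Vt B o :=
  ⟨g • σ.1, by
    refine ⟨?_, ?_, ?_, ?_⟩
    · rintro _ ⟨h, hh, rfl⟩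
      exact hinv g h (σ.2.sub hh)
    · intro h hh
      rw [Set.mem_smul_set_iff_inv_smul_mem, Set.mem_smul_set_iff_inv_smul_mem,
        Set.smul_set_compl]
      exact σ.2.alt _ (hinv _ h hh)
    · intro h hh k hk hsub
      rw [Set.mem_smul_set_iff_inv_smul_mem] at hh ⊢
      exact σ.2.up _ hh _ (hinv _ k hk) (Set.smul_set_mono hsub)
    · refine ((σ.2.fin.union (S.fin o (g⁻¹ • o))).image (fun h => g • h)).subset ?_
      rintro _ ⟨⟨h, hh, rfl⟩, h1⟩
      refine ⟨h, ?_, rfl⟩
      by_cases h2 : o ∈ h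
      · right
        refine ⟨σ.2.sub hh, h2, fun h3 => h1 ?_⟩
        show o ∈ g • h
        rw [Set.mem_smul_set_iff_inv_smul_mem]
        exact h3
      · exact Or.inl ⟨hh, h2⟩⟩

/-- the action -/
@[reducible] def actG (S : HSys B) (hinv : ∀ g : Γ, ∀ h ∈ B, g • h ∈ B) : MulAction Γ (Vt B o) where
  smul g σ := actV S hinv g σ
  one_smul σ := Subtype.ext (one_smul Γ σ.1)
  mul_smul g g' σ := Subtype.ext (mul_smul g g' σ.1)

theorem descend (S : HSys B) {σ : Vt B o} {g : Γ} (hg : g • σ.1 = σ.1) {h : Set P} (hh : h ∈ σ.1)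
    (hsub : g • h ⊂ h) : False := by
  have hk : ∀ k : ℕ, g ^ k • h ∈ σ.1 := by
    intro k
    induction k with
    | zero => rw [pow_zero, one_smul]; exact hh
    | succ k ih =>
      rw [pow_succ', mul_smul, ← hg]
      exact Set.smul_mem_smul_set ih
  have hstep : ∀ k : ℕ, g ^ (k + 1) • h ⊂ g ^ k • h := by
    intro k
    have e : g ^ (k + 1) • h = g ^ k • g • h := by rw [pow_succ, mul_smul]
    rw [e]
    refine ⟨Set.smul_set_mono hsub.1, fun h2 => hsub.2 ?_⟩
    exact (Set.smul_set_subset_smul_set_iff).1 h2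
  have hanti : StrictAnti fun k : ℕ => g ^ k • h := strictAnti_nat_of_succ_lt fun k => hstep k
  have hinj : Function.Injective fun k : ℕ => g ^ k • h := hanti.injective
  have ho : ∀ k : ℕ, o ∈ g ^ k • h := by
    intro k
    by_contra hcon
    have hinf : (Set.range fun j : ℕ => g ^ (k + j) • h).Infinite :=
      Set.infinite_range_of_injective fun i j hij => by
        have := hinj hij
        simpa using this
    refine hinf (σ.2.fin.subset ?_)
    rintro _ ⟨j, rfl⟩
    refine ⟨hk _, fun h2 => hcon ?_⟩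
    exact hanti.antitone (Nat.le_add_right k j) h2
  obtain ⟨b, hb⟩ := S.ne _ (S.compl _ (σ.2.sub hh))
  have hinf : (Set.range fun j : ℕ => g ^ j • h).Infinite := Set.infinite_range_of_injective hinj
  refine hinf ((S.fin o b).subset ?_)
  rintro _ ⟨j, rfl⟩
  refine ⟨σ.2.sub (hk j), ho j, fun h2 => hb ?_⟩
  have h3 : g ^ j • h ⊆ g ^ 0 • h := hanti.antitone (Nat.zero_le j)
  rw [pow_zero, one_smul] at h3
  exact h3 h2

end

theorem tree : S_TREE := by
  intro P Γ _ _ B hne S hnst hinv
  obtain ⟨o⟩ := hne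
  letI : MulAction Γ (Vt B o) := actG S hinv
  have hsm : ∀ (g : Γ) (σ : Vt B o), (g • σ).1 = g • σ.1 := fun _ _ => rfl
  refine ⟨Vt B o, actG S hinv, ZG S o, pt S o, ⟨ZG_median S o, ?_⟩, ?_, ?_, ?_, ?_, ?_⟩
  · intro x y z w h
    rw [btw_iff] at h ⊢
    rw [btw_iff]
    by_contra hcon
    push Not at hcon
    obtain ⟨h1, h2⟩ := hcon
    rw [Set.not_subset] at h1 h2
    obtain ⟨a, ⟨ax, aw⟩, az⟩ := h1
    obtain ⟨b, ⟨bw, b_y⟩, bz⟩ := h2
    have aB := x.2.sub ax
    have bB := y.2.sub b_y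
    have ay : a ∉ y.1 := fun ay => az (h ⟨ax, ay⟩)
    have bx : b ∉ x.1 := fun bx => bz (h ⟨bx, b_y⟩)
    have aB' := S.compl a aB
    have bB' := S.compl b bB
    have ay' := mem_of_not aB ay
    have bx' := mem_of_not bB bx
    have az' := mem_of_not aB az
    have bz' := mem_of_not bB bz
    rcases hnst a aB b bB with hn | hn | hn | hn
    · exact bx (x.2.up a ax b bB hn)
    · exact not_of_mem bw (w.2.up a aw bᶜ bB' hn)
    · exact bz (z.2.up aᶜ az' b bB hn)
    · exact not_of_mem b_y (y.2.up aᶜ ay' bᶜ bB' hn)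
  · intro g x y h
    show DD (g • x) (g • y) = 1
    have h' : DD x y = 1 := h
    rw [← h']
    unfold DD
    rw [hsm, hsm, ← Set.smul_set_sdiff]
    exact Set.ncard_image_of_injective _ (MulAction.injective g)
  · intro g a
    apply Subtype.ext
    rw [hsm]
    ext h
    rw [Set.mem_smul_set_iff_inv_smul_mem]
    constructor
    · rintro ⟨h1, h2⟩
      rw [Set.mem_smul_set_iff_inv_smul_mem, inv_inv] at h2
      have := hinv g _ h1
      rw [smul_inv_smul] at this
      exact ⟨this, h2⟩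
    · rintro ⟨h1, h2⟩
      refine ⟨hinv _ _ h1, ?_⟩
      rw [Set.mem_smul_set_iff_inv_smul_mem, inv_inv]
      exact h2
  · intro a b
    constructor
    · intro h g hg
      have h1 : g ∈ (pt S o a).1 ↔ g ∈ (pt S o b).1 := by rw [h]
      rw [mem_pt, mem_pt] at h1
      constructor
      · intro h2
        exact (h1.1 ⟨hg, h2⟩).2
      · intro h2
        exact (h1.2 ⟨hg, h2⟩).2
    · intro h
      apply Subtype.ext
      ext g
      rw [mem_pt, mem_pt]
      constructor
      · rintro ⟨h1, h2⟩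
        exact ⟨h1, (h g h1).1 h2⟩
      · rintro ⟨h1, h2⟩
        exact ⟨h1, (h g h1).2 h2⟩
  · intro x y hxy
    obtain ⟨k, hk1, hk2⟩ := adj_lab S hxy
    have hkB : k ∈ B := by
      have : k ∈ y.1 \ x.1 := by rw [hk1]; exact Set.mem_singleton k
      exact y.2.sub this.1
    refine ⟨k, hkB, fun g hx hy => ?_⟩
    have h1 : g • (y.1 \ x.1) = y.1 \ x.1 := by
      rw [Set.smul_set_sdiff, ← hsm, ← hsm, hx, hy]
    rw [hk1, Set.smul_set_singleton, Set.singleton_eq_singleton_iff] at h1
    exact h1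
  · intro x g h hh hsub hx
    have hg : g • x.1 = x.1 := by rw [← hsm, hx]
    by_cases hx1 : h ∈ x.1
    · exact descend S hg hx1 hsub
    · have hx2 := mem_of_not hh hx1
      have hg' : g⁻¹ • x.1 = x.1 := by
        rw [inv_smul_eq_iff, hg]
      refine descend S hg' hx2 ?_
      have h1 : h ⊂ g⁻¹ • h := by
        refine ⟨?_, fun h2 => hsub.2 ?_⟩
        · rw [Set.subset_smul_set_iff, inv_inv]
          exact hsub.1
        · rw [Set.smul_set_subset_iff_subset_inv_smul_set, inv_inv] at h2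
          exact h2
      rw [Set.smul_set_compl]
      exact compl_lt_compl_iff_lt.2 h1

end Q32.LR2
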