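import Pool.Agent.Q32.LR2.Main
import Pool.Agent.Q32.LR2.Rel
import Pool.Agent.Q32.LR2.Tree
import Pool.Agent.Q32.LR2.Sub
import Pool.Agent.Q32.LR2.Ret
import Pool.Agent.Q224.LR2.FT
import Pool.Agent.Q224.LR2.CO
import Pool.Agent.Q95.LR2.MT
import Pool.Agent.Q224.LR2.CRF
import Pool.Agent.Q224.LR2.NL
import Pool.Agent.Q251.LR2.STA
import Pool.Agent.Q65.LR2.Good
import Pool.Agent.Q65.LR2.Inv
import Pool.Agent.Q224.LR2.NEST0
import Pool.Agent.Q190.LR2.FIX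
import Pool.Agent.Q190.LR2.NB
import Pool.Agent.Q209.LR2.EXT
import Pool.Agent.Q32.LR2.CpF0
import Pool.Agent.Q32.LR2.CpF1
import Pool.Agent.Q32.LR2.CpF3
import Pool.Agent.Q48.LR2.F4
import Pool.Agent.Q18.LR2.Dir
import Pool.Agent.Q18.LR2.All
import Pool.Agent.Q166.LR2.RFG
import Pool.Agent.Q251.LR2.CUT
import Pool.Agent.Q48.LR2.MAL
import Pool.Agent.Q202.LR2.STEP
import Pool.Agent.Q237.LR2.CLO
import Pool.Agent.Q48.LR2.AXC
import Pool.Agent.Q224.LR2.SH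
import Pool.Agent.Q166.LR2.ABS
import Pool.Agent.Q209.LR2.TGT
import Pool.Agent.Q224.LR2.PB
import Pool.Agent.Q237.LR2.RED
import Pool.Agent.Q166.LR2.FIN
import Pool.Agent.Q32.LR2.CpAX
import Pool.Agent.Q38.LR2.CTB
import Pool.Agent.Q38.LR2.ZORN
import Pool.Agent.Q38.LR2.LRT

/-!
# Project LR2: the final theorem
-/

set_option autoImplicit false

namespace Q32.LR2

open Pool.Agent.H97R3.VR Pool.Agent.TH97.VR

/-- Every finitely generated subgroup of a virtually free group is a virtual retract. -/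
theorem final (G : Type) [Group G] (F : Subgroup G) (hF : F.FiniteIndex) (hfree : IsFreeGroup F)
    (H : Subgroup G) (hH : H.FG) : IsVirtualRetract H :=
  assemble Q224.LR2.ft Q224.LR2.co Q95.LR2.mt Q224.LR2.crf Q224.LR2.nl Q251.LR2.t_STA
    Q251.LR2.t_STB Q65.LR2.good Q65.LR2.inv Q224.LR2.nest0 tree Q190.LR2.t_FIX
    Q190.LR2.t_NB Q209.LR2.ext rel Pool.Agent.Q102.LR2.s_F0 Q190.LR2.t_F1 Q190.LR2.t_F2 Pool.Agent.Q102.LR2.s_F3
    Pool.Agent.Q48.LR2.t_F4 Q38.LR2.ax ret sub Pool.Agent.Q18.LR2.t_DIR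
    (Q166.LR2.rfg Pool.Agent.Q102.LR2.s_F0 Q190.LR2.t_F1 Q190.LR2.t_F2 Pool.Agent.Q102.LR2.s_F3 tree Q190.LR2.t_FIX
      Q190.LR2.t_NB Q209.LR2.ext) Q251.LR2.t_CUT
    Pool.Agent.Q48.LR2.t_MAL Q202.LR2.step Q237.LR2.clo Q38.LR2.ctb Q38.LR2.zorn Pool.Agent.Q18.LR2.t_ALL
    Pool.Agent.Q48.LR2.t_AXC Q224.LR2.sh Q166.LR2.Abs.abs Q209.LR2.tgt (Q38.LR2.lrt Q224.LR2.pb) Q224.LR2.pb Q237.LR2.red
    Q166.LR2.Fin.fin G F hF hfree H hH

end Q32.LR2
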