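import Pool.Agent.Q32.LR2.Stm

/-!
# Project LR2: assembly
-/

set_option autoImplicit false

namespace Q32.LR2

open Pool.Agent.H97R3.VR Pool.Agent.TH97.VR
open Pointwise

/-- All statements together give the theorem. -/
theorem assemble (ft : S_FT) (co : S_CO) (mt : S_MT) (crf : S_CRF) (nl : S_NL) (sta : S_STA)
    (stb : S_STB) (good : S_GOOD) (inv : S_INV) (nest0 : S_NEST0) (tree : S_TREE) (fix : S_FIX)
    (nb : S_NB) (ext : S_EXT) (rel : S_REL) (f0 : S_F0) (f1 : S_F1) (f2 : S_F2) (f3 : S_F3)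
    (f4 : S_F4) (ax : S_AX) (ret : S_RET) (sub : S_SUB) (dir : S_DIR) (rfg : S_RFG) (cut : S_CUT)
    (mal : S_MAL) (step : S_STEP) (clo : S_CLO) (ctb : S_CTB) (zorn : S_ZORN) (all : S_ALL)
    (axc : S_AXC) (sh : S_SH) (abs : S_ABS) (tgt : S_TGT) (lrt : S_LRT) (pb : S_PB) (red : S_RED)
    (fin : S_FIN) (G : Type) [Group G] (F : Subgroup G) (hF : F.FiniteIndex) (hfree : IsFreeGroup F)
    (H : Subgroup G) (hH : H.FG) : IsVirtualRetract H := by
  have nest : S_NEST := nest0 ft mt co good nl sta stb crf inv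
  refine red ?_ G F hF hfree H hH
  refine fin sub rfg ret ?_ fix tgt lrt pb ?_
  · intro Γ Y _ _ A _ _ e hfg
    exact abs f0 f1 ax axc co sh nest tree Γ Y A e hfg
  · intro G Q M Y _ _ _ _ _ F H _ _ e π s hπ hH hFH W0 hW0 hFW f hf
    refine all sub dir clo ctb zorn G Q M Y F H e π s hH hFH ?_ W0 hW0 hFW f hf
    intro Z S S' hZ hS' hSS hFZ f hf
    exact step sub rfg ret cut mal f0 f1 f2 f3 f4 nest tree fix nb ext rel G Q M Y F H e π s hπ Z S S'
      hZ hS' hSS hFZ f hf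

end Q32.LR2
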