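import Pool.Agent.Q32.LR2.Stm

/-!
# Project LR2: connected parts of reduced words are reduced
-/

set_option autoImplicit false

namespace Q32.LR2

theorem rsub {Y : Type} {L M : List (Y × Bool)} (h : FreeGroup.IsReduced L)
    (hM : ∃ s t : List (Y × Bool), s ++ M ++ t = L) : FreeGroup.IsReduced M := by
  obtain ⟨s, t, rfl⟩ := hM
  unfold FreeGroup.IsReduced at h ⊢
  exact (List.IsChain.left_of_append h).right_of_append

end Q32.LR2
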