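import Pool.Agent.Q32.LR2.Def
import Pool.Agent.Q27.LR.Hyp

/-!
# Project LR2: every virtually free group has property (LR). Statements.

MP_a112e0_al, frozen statement S02523. The finitely generated case is `Q27.LR.main` (landed). Here
all statements needed for the general case, with complete proofs in the docstrings.
-/

set_option autoImplicit false

namespace Q32.LR2

open Pool.Agent.H97R3.VR Pool.Agent.TH97.VR
open Pointwise

/-! ### Part 1: cuts -/

/-- FT. Finitely many thin cuts with at most `n` edges separate `a` and `b`.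
Proof. Induction on `n`, for all graphs `X` (not necessarily connected) and all `a`, `b` with
`X.Reachable a b`. Take a walk `a = x_0, ..., x_k = b`. Every `U` in the set has an `i < k` with
`x_i` in `U`, `x_(i+1)` not in `U`; so it is enough to treat the `U` with `x` in `U`, `y` not in `U`
for one edge `(x, y)` of `X`. If `n = 0` there is no such `U` (`(x, y)` is in `cob X U`). For `n + 1`
let `X'` be `X` without the edge `xy` (`X.deleteEdges {s(x, y)}`). `U` is thin in `X'` (the edge `xy`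
joins `U` and its complement, so it plays no role in `Cn X U` and in `Cn X Uᶜ`), and
`cob X' U = cob X U \ {(x, y)}` has at most `n` elements. If `X'.Reachable x y`, the induction
hypothesis for `X'`, `x`, `y` gives finiteness. Otherwise `U = {v | X'.Reachable x v}` is determined:
with `D` this set, `U ∩ D` is nonempty and closed under edges of `X'` inside `U`, so `U ∩ D = U` by
`Cn X' U`; if `Uᶜ ∩ D` were nonempty, then `Uᶜ ∩ D = Uᶜ` contains `y`, contradiction. -/
def S_FT : Prop := ∀ (V : Type) (n : ℕ) (X : SimpleGraph V) (a b : V), X.Reachable a b →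
  {U : Set V | a ∈ U ∧ b ∉ U ∧ Thin X U ∧ (cob X U).Finite ∧ (cob X U).ncard ≤ n}.Finite

/-- CO. Complement and submodularity. `cob X Uᶜ` is the image of `cob X U` under the swap. With
`A = cob (U ∩ W)`, `B = cob (U ∪ W)`, `C = cob U`, `D = cob W` one has `A ∪ B ⊆ C ∪ D` and
`A ∩ B ⊆ C ∩ D`, and `ncard A + ncard B = ncard (A ∪ B) + ncard (A ∩ B)`; finally
`Uᶜ ∩ Wᶜ = (U ∪ W)ᶜ`. -/
def S_CO : Prop := ∀ (V : Type) (X : SimpleGraph V),
  (∀ U, (cob X U).Finite → (cob X Uᶜ).Finite ∧ (cob X Uᶜ).ncard = (cob X U).ncard) ∧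
  (∀ U W, (cob X U).Finite → (cob X W).Finite →
    (cob X (U ∩ W)).Finite ∧ (cob X (Uᶜ ∩ Wᶜ)).Finite ∧
    (cob X (U ∩ W)).ncard + (cob X (Uᶜ ∩ Wᶜ)).ncard ≤ (cob X U).ncard + (cob X W).ncard)

/-- MT. Minimal cuts are thin. Proof. Let `U` be in `MC X P n` with `p`, `q`. `U` and `Uᶜ` are
nonempty (`U` is in one of the two ultrafilters and not in the other one), so `cob X U` is nonempty
as `X` is connected. By symmetry (`Sp` and `Lo` are symmetric under complement and exchange of `p`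
and `q`, use CO) we show `Cn X U`, and may assume `U ∈ p`, `U ∉ q`, or `U ∉ p`, `U ∈ q`; say `U ∈ p`.
Let `W ⊆ U` be nonempty, closed under edges inside `U`, `W ≠ U`. Then `cob X U` is the disjoint union
of `cob X W` and `cob X (U \ W)`, both nonempty by connectedness, so both have fewer than `n`
elements. `p` contains `W` or `U \ W`, `q` contains neither, so one of the two sets separates `p`
from `q`, contradicting `Lo X n p q`. -/
def S_MT : Prop := S_CO → ∀ (V : Type) (X : SimpleGraph V), X.Connected →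
  ∀ (P : Set (Ultrafilter V)) (n : ℕ), ∀ U ∈ MC X P n,
    Thin X U ∧ U.Nonempty ∧ Uᶜ.Nonempty ∧ (cob X U).Nonempty

/-- CRF. Finitely many thin cuts of bounded size cross a given cut. Proof. If `Z` is thin and not
nested with `U`, the four sets `U ∩ Z`, `U ∩ Zᶜ`, `Uᶜ ∩ Z`, `Uᶜ ∩ Zᶜ` are nonempty. By `Cn X Z` (with
`W = U ∩ Z`, which is not `Z`) there is an edge of `X` inside `Z` from `U` to `Uᶜ`, and an edge inside
`Zᶜ` from `U` to `Uᶜ`. So there are `a`, `b` in the finite set of the first coordinates of `cob X U`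
with `a ∈ Z`, `b ∉ Z`. Now use FT for each of these finitely many pairs. -/
def S_CRF : Prop := S_FT → ∀ (V : Type) (X : SimpleGraph V), X.Connected →
  ∀ (U : Set V), (cob X U).Finite → ∀ n : ℕ,
    {Z : Set V | Thin X Z ∧ (cob X Z).Finite ∧ (cob X Z).ncard ≤ n ∧ ¬ Nst U Z}.Finite

/-- NL. Elementary facts about nested sets (case analysis). In the fifth statement: if `Z` is nested
with `U` and with `W`, the only bad cases are `Z ⊆ U, Zᶜ ⊆ W` and `Zᶜ ⊆ U, Z ⊆ W`; then
`U ∪ W` is everything, `Uᶜ ⊆ W`, so `U`, `W` are nested. Sixth: if `Z ⊆ W` or `Zᶜ ⊆ W`, then `Z` or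
`Zᶜ` is disjoint from `Uᶜ ∩ Wᶜ`; if `Z ⊆ Wᶜ` or `Zᶜ ⊆ Wᶜ`, it is disjoint from `U ∩ W`. -/
def S_NL : Prop := ∀ (V : Type) (U W Z : Set V),
  (Nst U W → Nst W U) ∧ (Nst U W → Nst Uᶜ W) ∧ (Nst U W → Nst U Wᶜ) ∧
  (Nst (U ∩ W) U ∧ Nst (U ∩ W) W ∧ Nst (Uᶜ ∩ Wᶜ) U ∧ Nst (Uᶜ ∩ Wᶜ) W) ∧
  (¬ Nst U W → Nst U Z → Nst W Z → Nst (U ∩ W) Z ∧ Nst (Uᶜ ∩ Wᶜ) Z) ∧
  (Nst W Z → Nst (U ∩ W) Z ∨ Nst (Uᶜ ∩ Wᶜ) Z) ∧
  (Nst U Z → Nst (U ∩ W) Z ∨ Nst (Uᶜ ∩ Wᶜ) Z)

/-- STA. Let `B` be good for `n`. If `p`, `q` can be separated by `n` edges and not by fewer, then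
some minimal cut with `n` edges nested with `B` separates them.
Proof. The set `{Z ∈ B | ¬ Nst U Z}` is finite for every `U` with finite coboundary (CRF, MT). Choose
`U` in `MC X P n` separating `p`, `q` with the smallest number of such `Z`. Suppose `W ∈ B` is not
nested with `U`, `W ∈ MC X P m`, `m < n`, with `r`, `s` in `P` separated by `W` and `Lo X m r s`. `W`
does not separate `p`, `q` (`Lo X n p q`), so replacing `W` by `Wᶜ` we may assume `W ∈ p`, `W ∈ q`.
Exchanging names: `W ∈ r`, `W ∉ s`, and `U ∈ p`, `U ∉ q`. Case 1: `Uᶜ ∈ s`. Then `Uᶜ ∩ Wᶜ` separates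
`s` and `r`, so it has at least `m` edges, `U ∩ W` separates `p` and `q`, so it has at least `n` edges;
by submodularity (CO) `U ∩ W` has exactly `n` edges, so it is in `MC X P n`. If `Z ∈ B` is not nested
with `U ∩ W` then it is not nested with `U` (it is nested with `W`; NL, fifth statement), and `W` is
not nested with `U` but nested with `U ∩ W`: fewer crossings, contradiction. Case 2: `U ∈ s`. Same
with `Uᶜ` in place of `U` (and `p`, `q` exchanged): `U ∩ Wᶜ` separates `s` and `r`, `Uᶜ ∩ W` separates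
`q` and `p`. -/
def S_STA : Prop := S_CO → S_NL → S_MT → S_CRF → S_FT → ∀ (V : Type) (X : SimpleGraph V),
  X.Connected → ∀ (P : Set (Ultrafilter V)) (n : ℕ) (B : Set (Set V)), Good X P n B →
  ∀ p ∈ P, ∀ q ∈ P, Lo X n p q → (∃ U, Sp p q U ∧ (cob X U).Finite ∧ (cob X U).ncard = n) →
    ∃ U ∈ NC X P n B, Sp p q U

/-- STB. The optimally nested cuts are nested.
Proof. For `U` with finite coboundary write `μ(U) = (cr (NC X P n B) U).ncard`; the set is finite (CRF,
MT). Let `U`, `W` be in `New X P n B`, with the pairs `p, q` and `r, s`, not nested. For corners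
`A = U ∩ W`, `A' = Uᶜ ∩ Wᶜ` (or with `W` replaced by `Wᶜ`, or `U` by `Uᶜ`; `μ` and `NC` are invariant
under complement): (i) if `A` separates a pair with `Lo X n`, and `A'` too, then both have exactly `n`
edges (CO) and are in `NC X P n B` (nested with `Z ∈ B` by NL); (ii) `μ(A) + μ(A') < μ(U) + μ(W)`,
because `cr A ∪ cr A' ⊆ cr U ∪ cr W`, `cr A ∩ cr A' ⊆ cr U ∩ cr W` (NL), and `W` is in `cr U` but not
in `cr A ∪ cr A'`. So it is impossible that one of the opposite corners separates `p, q` and the other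
one separates `r, s` [then `μ` of them is at least `μ(U)` and `μ(W)`].
Case 1: `W` separates `p, q`. Choose names such that `U, W ∈ p`, `U, W ∉ q`, `W ∈ r`, `W ∉ s`. Then
`A` and `A'` both separate `p, q`. If `U ∈ r` then `A` separates `r, s`; if `U ∉ s` then `A'` separates
`r, s`: contradiction in both cases. Otherwise `U ∉ r`, `U ∈ s`: the opposite corners `Uᶜ ∩ W` and
`U ∩ Wᶜ` both separate `r, s`. Then `2 μ(U) ≤ μ(A) + μ(A') < μ(U) + μ(W)` and
`2 μ(W) ≤ μ(Uᶜ ∩ W) + μ(U ∩ Wᶜ) < μ(U) + μ(W)`, contradiction. Case 2: `U` separates `r, s`: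
symmetric. Case 3: neither. Choose names such that `W ∈ p, q`, `U ∈ r, s`, `U ∈ p`, `U ∉ q`, `W ∈ r`,
`W ∉ s`. Then `Uᶜ ∩ W` separates `q, p`, and the opposite corner `U ∩ Wᶜ` separates `s, r`,
contradiction. -/
def S_STB : Prop := S_CO → S_NL → S_MT → S_CRF → S_FT → ∀ (V : Type) (X : SimpleGraph V),
  X.Connected → ∀ (P : Set (Ultrafilter V)) (n : ℕ) (B : Set (Set V)), Good X P n B →
  ∀ U ∈ New X P n B, ∀ W ∈ New X P n B, Nst U W

/-- GOOD. `Cum X P n` is good. Induction on `n`: closed under complement (`MC`, `NC`, `New` are, as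
`cr N Uᶜ = cr N U`, `Sp p q Uᶜ ↔ Sp p q U`); nested: by STB and the definition of `NC`; separation: if
the least size of a finite cut separating `p`, `q` is `n`, then STA gives an element of `NC`
separating them, take one with the smallest number of crossings. -/
def S_GOOD : Prop := S_CO → S_NL → S_STA → S_STB → S_MT → S_CRF → S_FT →
  ∀ (V : Type) (X : SimpleGraph V),
  X.Connected → ∀ (P : Set (Ultrafilter V)) (n : ℕ), Good X P n (Cum X P n)

/-- INV. Invariance under automorphisms: transport of structure, `σ '' U` for `U` in each of the sets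
`MC`, `NC`, `New`, `Cum`; `cob X (σ '' U)` is the image of `cob X U` under `Prod.map σ σ`. -/
def S_INV : Prop := ∀ (V : Type) (X : SimpleGraph V) (P : Set (Ultrafilter V)) (σ : Equiv.Perm V),
  (∀ x y, X.Adj (σ x) (σ y) ↔ X.Adj x y) → (∀ p ∈ P, p.map σ ∈ P) → (∀ p ∈ P, p.map σ.symm ∈ P) →
  ∀ n : ℕ, ∀ U ∈ Cum X P n, σ '' U ∈ Cum X P n

/-- NEST. The main theorem on cuts. Take `B = Cum X P (n0 + 1)`; the finiteness is FT and MT. -/
def S_NEST : Prop := ∀ (V : Type) (X : SimpleGraph V), X.Connected →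
  ∀ (P : Set (Ultrafilter V)) (n0 : ℕ), ∃ B : Set (Set V),
    HSys B ∧ (∀ U ∈ B, ∀ W ∈ B, Nst U W) ∧
    (∀ U ∈ B, (cob X U).Finite ∧ (cob X U).Nonempty) ∧
    (∀ p ∈ P, ∀ q ∈ P, ∀ W, (cob X W).Finite → (cob X W).ncard ≤ n0 → Sp p q W →
      ∃ U ∈ B, Sp p q U) ∧
    ∀ σ : Equiv.Perm V, (∀ x y, X.Adj (σ x) (σ y) ↔ X.Adj x y) → (∀ p ∈ P, p.map σ ∈ P) →
      (∀ p ∈ P, p.map σ.symm ∈ P) → ∀ U ∈ B, σ '' U ∈ B

/-- The last step of part 1. -/
def S_NEST0 : Prop := S_FT → S_MT → S_CO → S_GOOD → S_NL → S_STA → S_STB → S_CRF → S_INV → S_NEST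

/-! ### Part 2: the dual tree -/

/-- TREE. The dual tree of a nested invariant system of half spaces. Take `C = Vt B o`,
`T = ZG S o`, `pt = pt S o` (file `Pool/Agent/TH97/VR/Dual.lean`), the action `g • σ = g • σ.1`
(compare `gV`, `actZ` in `Pool/Agent/TH97/VR/Act.lean`). IsTr: `ZG_median`; `tri`: by `btw_iff` we
have `x ∩ y ⊆ z`; if neither `x ∩ o ⊆ z` nor `o ∩ y ⊆ z`, there are `h ∈ x ∩ o`, `h ∉ z` and
`k ∈ o ∩ y`, `k ∉ z`; then `x` contains `h` and `kᶜ`, `y` contains `hᶜ` and `k`, `z` contains `hᶜ`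
and `kᶜ`, `o` contains `h` and `k`, so `h`, `k` are not nested (vertices are upward closed). Edge
property: `adj_lab` of `Pool/Agent/TH97/VR/Act.lean` gives `y \ x = {h}`, and `g` maps `y \ x` to
itself. Last property: suppose `g • x = x`, `g • h ⊂ h`. If `h ∈ x` then all `g ^ k • h` (`k` in ℕ) are
in `x`; they are distinct, so by `IsVert.fin` infinitely many of them, hence all (they decrease),
contain `o`; take `b ∉ h` (`h` is not everything): infinitely many members of `B` contain `o` and not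
`b`, contradiction to `HSys.fin`. If `h ∉ x` then `hᶜ ∈ x` and `g⁻¹ • hᶜ ⊂ hᶜ`, same argument. -/
def S_TREE : Prop := ∀ (P Γ : Type) [Group Γ] [MulAction Γ P] (B : Set (Set P)), Nonempty P →
  HSys B → (∀ h ∈ B, ∀ k ∈ B, Nst h k) → (∀ g : Γ, ∀ h ∈ B, g • h ∈ B) →
  ∃ (C : Type) (_ : MulAction Γ C) (T : SimpleGraph C) (pt : P → C), IsTr T ∧
    (∀ (g : Γ) (x y : C), T.Adj x y → T.Adj (g • x) (g • y)) ∧
    (∀ (g : Γ) (a : P), g • pt a = pt (g • a)) ∧
    (∀ a b : P, pt a = pt b ↔ ∀ h ∈ B, (a ∈ h ↔ b ∈ h)) ∧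
    (∀ x y : C, T.Adj x y → ∃ h ∈ B, ∀ g : Γ, g • x = x → g • y = y → g • h = h) ∧
    (∀ (x : C) (g : Γ), ∀ h ∈ B, g • h ⊂ h → g • x ≠ x)

/-! ### Part 3: extension of homomorphisms along trees -/

/-- FIX. A finite group acting on a tree fixes a vertex or stabilises an edge. Proof. Let `O` be the
orbit of a vertex `o`, `ecc x` the maximum of `dist x o'` for `o' ∈ O`, `x` a vertex with smallest
`ecc`. If `y` is another one, then `dist x y ≤ 1`: otherwise let `z` be a vertex between `x` and `y`,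
different from both; for every `o'` in `O` the vertex `z` is between `x` and `o'` or between `o'` and
`y` (`tri`), so `dist z o'` is smaller than the maximum of `dist x o'` and `dist y o'`; so
`ecc z < ecc x`. The set of the vertices with smallest `ecc` is invariant, and has at most two
elements (three pairwise adjacent vertices are impossible in a median graph). -/
def S_FIX : Prop := ∀ (C E : Type) [Group E] [Finite E] [MulAction E C] (T : SimpleGraph C), IsTr T →
  (∀ (g : E) (x y : C), T.Adj x y → T.Adj (g • x) (g • y)) →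
  ∃ x y : C, (x = y ∨ T.Adj x y) ∧ ∀ g : E, (g • x = x ∧ g • y = y) ∨ (g • x = y ∧ g • y = x)

/-- NB. Equivariant choice. For every `L`-orbit in `A` choose a representative `z` and `n` for it, for
`y` in the orbit choose `l` in `L` with `l • z = y` and put `m y = s (π l) * n * (f l)⁻¹`. -/
def S_NB : Prop := ∀ (Γ Q M C : Type) [Group Γ] [Group Q] [Group M] [MulAction Γ C] (π : Γ →* Q)
  (s : Q →* M) (f : Γ → M) (L : Subgroup Γ) (A : Set C), HomOn L f →
  (∀ l ∈ L, ∀ y ∈ A, l • y ∈ A) →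
  (∀ y ∈ A, ∃ n : M, ∀ g ∈ L, g • y = y → f g = n⁻¹ * s (π g) * n) →
  ∃ m : C → M, ∀ l ∈ L, ∀ y ∈ A, m (l • y) = s (π l) * m y * (f l)⁻¹

/-- EXT. The extension lemma. `L` is the stabiliser of the vertex `x0`, the kernel of `π` is
transitive on the orbit of `x0`.
Proof. For `x` in the orbit of `x0` choose `r x` in the kernel of `π` with `r x • x0 = x`, `r x0 = 1`.
Put `a g x = f ((r (g • x))⁻¹ * g * r x)` for `x` in the orbit, `a g x = s (π g)` for the other
vertices: `a (g g') x = a g (g' • x) * a g' x`. Let `m` be the map of NB for `A` the set of neighbours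
of `x0`. For adjacent `x`, `y` put `n x y = m ((r x)⁻¹ • y)` if `x` is in the orbit, `n x y = 1` if
not. Then `n (g • x) (g • y) = s (π g) * n x y * (a g x)⁻¹` (for `x` in the orbit use
`l = (r (g • x))⁻¹ * g * r x ∈ L`, `π l = π g`). With `c x y = (n y x)⁻¹ * n x y` we have
`a g y * c x y = c (g • x) (g • y) * a g x` and `c y x * c x y = 1`. By `exists_pot` of
`Pool/Agent/H97R3/VR/Main.lean` (there are no squares: `tri` for a square `x y w z`, with `y` between
`x` and `w` and `o = z` is violated) there is `F : C → M` with `F x0 = 1` and `F y = c x y * F x` for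
adjacent `x`, `y`. By connectedness `a g x * F x = F (g • x) * (F (g • x0))⁻¹ * a g x0` for all `g`,
`x`. Put `φ g = (F (g • x0))⁻¹ * a g x0`. It is multiplicative and extends `f`, and
`φ g = (F (g • x))⁻¹ * a g x * F x` for every `x`.
`Pr`: let `E` be finite, by FIX it fixes a vertex `x` or stabilises an edge `x, y`. If it fixes `x`:
`φ g = (F x)⁻¹ * a g x * F x`; for `x` in the orbit `a g x = f ((r x)⁻¹ * g * r x)` and
`(r x)⁻¹ E (r x) ≤ L` is finite; `π ((r x)⁻¹ g r x) = π g`. If it stabilises the edge: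
`N = n x y * F x = n y x * F y`, and `φ g = N⁻¹ * s (π g) * N` for all `g` in `E`. -/
def S_EXT : Prop := S_FIX → S_NB → ∀ (Γ Q M C : Type) [Group Γ] [Group Q] [Group M]
  [MulAction Γ C] (T : SimpleGraph C), IsTr T →
  (∀ (g : Γ) (x y : C), T.Adj x y → T.Adj (g • x) (g • y)) →
  ∀ (π : Γ →* Q) (s : Q →* M) (x0 : C) (L : Subgroup Γ), (∀ g, g ∈ L ↔ g • x0 = x0) →
  (∀ g : Γ, ∃ k ∈ π.ker, ∃ l ∈ L, g = k * l) →
  ∀ f : Γ → M, HomOn L f →
  (∀ y, T.Adj x0 y → ∃ n : M, ∀ g ∈ L, g • y = y → f g = n⁻¹ * s (π g) * n) →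
  ∃ φ : Γ →* M, (∀ l ∈ L, φ l = f l) ∧ (Pr π s L f → Pr π s ⊤ φ)

/-- REL. Extension in the presence of cuts. `X = cosetG L S` is connected. Apply NEST to `X`, with the
set of all principal ultrafilters `pure x`, and `n0`; TREE for the action of `Γ` on `Γ ⧸ L` (the
translations are automorphisms of `X`), `x0 = pt (1 : Γ ⧸ L)`. The stabiliser of `x0` is `L`, because
different points of `Γ ⧸ L` are separated by a member of `B`. Let `y` be a neighbour of `x0`, `h` as in
the edge property. `E = {g ∈ L | g • h = h}` is a subgroup; `E ∩ π.ker` is trivial: if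
`k ∈ E ∩ π.ker`, then `k` permutes the finite nonempty set `cob X h`, so a power `k ^ j`, `j ≥ 1`, fixes
an element `(g L, g' L)` of it, `g L ≠ g' L`, `g⁻¹ * k ^ j * g` is in `L` and in the kernel of `π` and
its conjugate by `g⁻¹ * g'`, an element outside `L`, is in `L`, so `k ^ j = 1`, so `k = 1`. So `E` is
finite (`Q` is finite) and `Pr π s L f` gives the hypothesis of EXT. -/
def S_REL : Prop := S_NEST → S_TREE → S_FIX → S_NB → S_EXT →
  ∀ (Γ Q M : Type) [Group Γ] [Group Q] [Finite Q] [Group M] (π : Γ →* Q) (s : Q →* M)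
  (L : Subgroup Γ) (S : Set Γ), L ⊔ Subgroup.closure S = ⊤ →
  (∀ g : Γ, ∃ k ∈ π.ker, ∃ l ∈ L, g = k * l) →
  (∀ k ∈ π.ker, ∀ j : ℕ, 0 < j → k ^ j = 1 → k = 1) →
  (∀ c : Γ, c ∉ L → ∀ k ∈ π.ker, k ∈ L → c⁻¹ * k * c ∈ L → k = 1) →
  (∃ n0 : ℕ, ∀ x y : Γ ⧸ L, x ≠ y → ∃ D : Set (Γ ⧸ L), (cob (cosetG L S) D).Finite ∧
    (cob (cosetG L S) D).ncard ≤ n0 ∧ ((x ∈ D ∧ y ∉ D) ∨ (x ∉ D ∧ y ∈ D))) →
  ∀ f : Γ → M, HomOn L f → Pr π s L f →
  ∃ φ : Γ →* M, (∀ l ∈ L, φ l = f l) ∧ Pr π s ⊤ φ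

/-! ### Part 4: half spaces in free groups -/

/-- F0. A letter leads out of the half space only at its edge: the reduced word of `v * mk [l]` is
the reduced word of `v` with `l` appended, or without its last letter. -/
def S_F0 : Prop := ∀ (Y : Type) [DecidableEq Y] (w g : FreeGroup Y) (y : Y) (l : Y × Bool),
  w ∈ Hs g y → w * FreeGroup.mk [l] ∉ Hs g y → w = g * FreeGroup.of y ∧ l = (y, false)

/-- F1. Crossing numbers: induction on the word of `v` (a list `M` with `v = mk M`), using F0; for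
the second statement the pairs `(g, y)` with `a ∈ Hs g y`, `a * v ∉ Hs g y`. -/
def S_F1 : Prop := S_F0 → ∀ (Y : Type) [DecidableEq Y],
  (∀ (v g : FreeGroup Y) (y : Y), {u | u ∈ Hs g y ∧ u * v ∉ Hs g y}.Finite ∧
    {u | u ∈ Hs g y ∧ u * v ∉ Hs g y}.ncard ≤ v.norm) ∧
  (∀ a b : FreeGroup Y, {p : FreeGroup Y × Y | a ∈ Hs p.1 p.2 ∧ b ∉ Hs p.1 p.2}.Finite)

/-- F2. The half spaces with labels outside `W` separate the left cosets of `FW W`. Proof. If
`u⁻¹ * u'` is in `FW W`, it is a product of letters in `W` and by F0 no half space with label outside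
`W` is left or entered. Conversely let `v = u⁻¹ * u'` be not in `FW W`: its reduced word is
`P ++ (y, b) :: R` with `y` not in `W`. For `b = true` take `g = u * mk P`: `u' ∈ Hs g y`,
`u ∉ Hs g y`. For `b = false` take `g = u * mk P * (of y)⁻¹`: `u ∈ Hs g y`, `u' ∉ Hs g y`. -/
def S_F2 : Prop := S_F0 → ∀ (Y : Type) [DecidableEq Y] (W : Set Y) (u u' : FreeGroup Y),
  u⁻¹ * u' ∈ FW W ↔ ∀ y, y ∉ W → ∀ g, (u ∈ Hs g y ↔ u' ∈ Hs g y)

/-- F3. Half spaces are nested, determine their edge, are translated, and are not empty and not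
everything. Nestedness: let
`D = Hs g y`, `D' = Hs g' y'`, `(g, y) ≠ (g', y')`. By F0 the two elements `g`, `g * of y` are on the
same side of `D'`, and `g'`, `g' * of y'` are on the same side of `D`. Every element of `D'` is joined
to `g' * of y'` by a path of letters inside `D'`, every element outside `D'` is joined to `g'` by a path
of letters outside `D'` (prefixes of the reduced word of `g'⁻¹ * u`), every element of `D` to
`g * of y` inside `D`, and so on. If `g ∉ D'`: a path inside `D'` does not use the edge `g, g * of y`,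
so it does not leave or enter `D`: `D'` is inside `D` or inside the complement of `D`. If `g ∈ D'`: the
same for paths outside `D'`. -/
def S_F3 : Prop := S_F0 → ∀ (Y : Type) [DecidableEq Y] (g g' : FreeGroup Y) (y y' : Y),
  Nst (Hs g y) (Hs g' y') ∧ (Hs g y = Hs g' y' → g = g' ∧ y = y') ∧
  (g' • Hs g y = Hs (g' * g) y) ∧ (Hs g y).Nonempty ∧ (Hs g y)ᶜ.Nonempty

/-- F4. Malnormality of `FW W`. Proof. By F2 there are `k` and `y ∉ W` such that `Hs k y` separates `1`
and `b`. For every `n`, `Hs (a ^ n * k) y` separates `a ^ n` and `a ^ n * b`, hence `1` and `b` (F2,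
as `1⁻¹ * a ^ n` and `b⁻¹ * (a ^ n * b)` are in `FW W`). By F1 there are `n < m` with
`a ^ n * k = a ^ m * k`, so `a ^ (m - n) = 1` and `a = 1` (free groups are torsion-free:
`FreeGroup.infinite_order` or similar in Mathlib). -/
def S_F4 : Prop := S_F0 → S_F1 → S_F2 → S_F3 → ∀ (Y : Type) [DecidableEq Y] (W : Set Y)
  (a b : FreeGroup Y), b ∉ FW W → a ∈ FW W → b⁻¹ * a * b ∈ FW W → a = 1

/-- AX. The axis. Let `a` be conjugate by `u` to the cyclically reduced `b` (Mathlib: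
`FreeGroup.reduceCyclically`, `conj_conjugator_reduceCyclically`, `reduce_flatten_replicate`), and let
`(y, c)` be the first letter of `b`. If `c = true` take `g = u`: for large `n` the word of
`b ^ n * u⁻¹` starts with `(y, true)` and the word of `b⁻¹ ^ n * u⁻¹` starts with the inverse of the
last letter of `b`, which is not `(y, true)`. If `c = false` take `g = u * (of y)⁻¹`: then
`g⁻¹ * a⁻¹ ^ n` starts with `(y, true)` for large `n` and `g⁻¹ * a ^ n` does not. -/
def S_AX : Prop := ∀ (Y : Type) [DecidableEq Y] (a : FreeGroup Y), a ≠ 1 →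
  ∃ (g : FreeGroup Y) (y : Y) (N : ℕ),
    (∀ n ≥ N, a ^ n ∈ Hs g y ∧ a⁻¹ ^ n ∉ Hs g y) ∨ (∀ n ≥ N, a ^ n ∉ Hs g y ∧ a⁻¹ ^ n ∈ Hs g y)

/-- RET. Retractions. Let `C` act on `FreeGroup Y` by left multiplication. `B = {Hs g y, (Hs g y)ᶜ}`
for `y ∉ W` is a nested invariant system of half spaces (F1, F3). Use TREE with
`x0 = pt 1`; its stabiliser in `C` is the set of the `c` with `(c : FreeGroup Y) ∈ FW W` (F2). The
stabiliser in `C` of a half space is trivial (F3). Apply EXT with `Q = PUnit`, `M` the stabiliser (as a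
subgroup of `C`), `s = 1`, `π = 1`, `f c = c` on the stabiliser (and `1` elsewhere). -/
def S_RET : Prop := S_F0 → S_F1 → S_F2 → S_F3 → S_TREE → S_FIX → S_NB → S_EXT →
  ∀ (Y : Type) [DecidableEq Y] (W : Set Y) (C : Subgroup (FreeGroup Y)),
  ∃ ρ : C →* C, ∀ c : C, ((ρ c : C) : FreeGroup Y) ∈ FW W ∧
    ((c : FreeGroup Y) ∈ FW W → ρ c = c)

/-! ### Part 5: the subgroups AA and LL -/

section grp

/-- SUB. Elementary facts on `BB`, `AA`, `LL`. -/
def S_SUB : Prop := ∀ (G Y : Type) [Group G] (F H : Subgroup G) [F.Normal] (e : F ≃* FreeGroup Y),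
  (∀ (W : Set Y) (g : F), (g : G) ∈ BB F e W ↔ e g ∈ FW W) ∧
  (∀ W : Set Y, BB F e W ≤ F) ∧ (∀ W : Set Y, AA F H e W ≤ BB F e W) ∧
  (∀ W W' : Set Y, W ⊆ W' → AA F H e W ≤ AA F H e W' ∧ BB F e W ≤ BB F e W') ∧
  (∀ (W : Set Y), ∀ h ∈ H, ∀ a ∈ AA F H e W, h * a * h⁻¹ ∈ AA F H e W) ∧
  (∀ (W : Set Y) (g : G), g ∈ LL F H e W ↔ ∃ a ∈ AA F H e W, ∃ h ∈ H, g = a * h) ∧
  (∀ W : Set Y, F ⊓ H ≤ BB F e W → F ⊓ H ≤ AA F H e W) ∧
  (∀ W : Set Y, F ⊓ H ≤ BB F e W → F ⊓ LL F H e W = AA F H e W) ∧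
  (∀ W : Set Y, Clo F H e W → BB F e W = AA F H e W) ∧
  (AA F H e Set.univ = F)

/-- DIR. Directed unions. Let `R` be a finite subset of `H` with `H = R * (F ∩ H)` (it exists because
`H / (F ∩ H)` embeds into the finite group `G / F`). For `r` in `R` the element `r⁻¹ * a * r` is in
`BB` of the union, so it is in `BB (W i)` for some `i` (finitely many letters), choose `i` for all
`r ∈ R`. For `h = r * h0`, `h0 ∈ F ∩ H ≤ BB (W i)`, also `h⁻¹ * a * h ∈ BB (W i)`. -/
def S_DIR : Prop := S_SUB → ∀ (G Y I : Type) [Group G] (F H : Subgroup G) [F.Normal]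
  [F.FiniteIndex] (e : F ≃* FreeGroup Y) [Nonempty I] (W : I → Set Y),
  (∀ i j, ∃ k, W i ⊆ W k ∧ W j ⊆ W k) → (∀ i, F ⊓ H ≤ BB F e (W i)) →
  (∀ g, g ∈ AA F H e (⋃ i, W i) ↔ ∃ i, g ∈ AA F H e (W i)) ∧
  (∀ g, g ∈ LL F H e (⋃ i, W i) ↔ ∃ i, g ∈ LL F H e (W i))

/-- RFG. Relative finite generation. Proof. Let `R` be as in DIR, with `1 ∈ R`; put `W = Z ∪ S`.
`AA W` is the intersection of the finitely many `r BB(W) r⁻¹`, `r ∈ R` (as `F ∩ H ≤ BB W`). For
`r ∈ R` let `α_r` be the automorphism `u ↦ e (r * e.symm u * r⁻¹)` of `FreeGroup Y`. RET applied to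
the subgroup `α_r⁻¹ (D)` gives, transported by `α_r`, for every subgroup `D ≤ F` a homomorphism
`D → D` with values in `r BB(W) r⁻¹` which fixes the elements of `D ∩ r BB(W) r⁻¹`. Composing, we get a
homomorphism `ρ : BB W → BB W` with image `AA W` fixing `AA W` pointwise. So `AA W` is generated by
`ρ (z)`, `z` a letter in `Z`, and the finitely many `ρ (s)`, `s` a letter in `S`; the first ones are
fixed by `ρ` because `BB Z = AA Z ≤ AA W`. -/
def S_RFG : Prop := S_SUB → S_RET → ∀ (G Y : Type) [DecidableEq Y] [Group G] (F H : Subgroup G)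
  [F.Normal] [F.FiniteIndex] (e : F ≃* FreeGroup Y) (Z S : Set Y), Clo F H e Z → S.Finite →
  F ⊓ H ≤ BB F e (Z ∪ S) →
  ∃ R : Set G, R.Finite ∧ AA F H e (Z ∪ S) = BB F e Z ⊔ Subgroup.closure R

/-- CUT. The cuts. Put `Γ = LL W'`, `L = LL W`, `X = cosetG L S`. Let `R` be as in DIR. (a) Every
element of `Γ` is `k * h` with `k ∈ AA W'`, `h ∈ H ≤ L`, so every point of `Γ / L` is `k L` with
`k ∈ AA W'`; `k L = k' L` iff `k⁻¹ k' ∈ AA W` (SUB). (b) For `r ∈ R`, `u ∈ FreeGroup Y`, `y ∉ W` let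
`D` be the set of the `k L` (`k ∈ AA W'`) with `e (r⁻¹ k r) ∈ Hs u y`; this does not depend on `k`
because `r⁻¹ k⁻¹ k' r ∈ BB W` (F2). (c) Separation: if `k L ≠ k' L` then `h⁻¹ k⁻¹ k' h ∉ BB W` for some
`h = r h0`, `h0 ∈ F ∩ H ≤ BB W`, so `r⁻¹ k⁻¹ k' r ∉ BB W`, use F2. (d) Coboundary: an edge of `X` is
`(g L, g t L)` with `t ∈ S ∪ S⁻¹`, `g ∈ Γ`. Write `g = k h0 r = k' r` with `k' ∈ AA W'`, `r ∈ R`
(`H = (F ∩ H) R` too, replace `R` by `R⁻¹`, or take `R` closed under inverses and both decompositions),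
`r t = c h`, `c = c(r, t) ∈ AA W'`, `h ∈ H`: the edge is `(k' L, k' c L)`. It is in `cob X D` (for the
data `r', u, y`) iff `w = e (r'⁻¹ k' r') ∈ Hs u y` and `w * v ∉ Hs u y` with `v = e (r'⁻¹ c r')`. By F1
there are at most `v.norm` such `w`, and `k'` is determined by `w`. So `cob X D` is finite with at most
`n0 = ∑ norm (e (r'⁻¹ c(r,t) r'))` elements, sum over `r, r' ∈ R`, `t ∈ S ∪ S⁻¹`. -/
def S_CUT : Prop := S_SUB → S_F0 → S_F1 → S_F2 → ∀ (G Y : Type) [DecidableEq Y] [Group G]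
  (F H : Subgroup G) [F.Normal] [F.FiniteIndex] (e : F ≃* FreeGroup Y) (W W' : Set Y), W ⊆ W' →
  F ⊓ H ≤ BB F e W → ∀ S : Set (LL F H e W'), S.Finite →
  ∃ n0 : ℕ, ∀ x y : LL F H e W' ⧸ (LL F H e W).subgroupOf (LL F H e W'), x ≠ y →
    ∃ D : Set (LL F H e W' ⧸ (LL F H e W).subgroupOf (LL F H e W')),
      (cob (cosetG ((LL F H e W).subgroupOf (LL F H e W')) S) D).Finite ∧
      (cob (cosetG ((LL F H e W).subgroupOf (LL F H e W')) S) D).ncard ≤ n0 ∧
      ((x ∈ D ∧ y ∉ D) ∨ (x ∉ D ∧ y ∈ D))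

/-- MAL. Malnormality. Let `c = c1 * h`, `c1 ∈ AA W'`, `h ∈ H`; `c1 ∉ AA W`. `k ∈ F ∩ LL W = AA W`, and
`c1⁻¹ k c1 ∈ F ∩ LL W = AA W` too. Choose `h' ∈ H` with `h'⁻¹ c1 h' ∉ BB W`. F4 for
`a = e (h'⁻¹ k h')`, `b = e (h'⁻¹ c1 h')`. -/
def S_MAL : Prop := S_SUB → S_F0 → S_F1 → S_F2 → S_F3 → S_F4 → ∀ (G Y : Type) [DecidableEq Y]
  [Group G] (F H : Subgroup G) [F.Normal] (e : F ≃* FreeGroup Y) (W W' : Set Y), W ⊆ W' →
  F ⊓ H ≤ BB F e W → ∀ c ∈ LL F H e W', c ∉ LL F H e W → ∀ k ∈ F, k ∈ LL F H e W →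
  c⁻¹ * k * c ∈ LL F H e W → k = 1

/-- The property of a partial extension on `LL W`. -/
def Ok {G Q M Y : Type} [Group G] [Group Q] [Group M] (F H : Subgroup G) (e : F ≃* FreeGroup Y)
    (π : G →* Q) (s : Q →* M) (W : Set Y) (f : G → M) : Prop :=
  HomOn (LL F H e W) f ∧ Pr π s (LL F H e W) f

/-- STEP. One step: REL for `Γ = LL (Z ∪ S')`, `L = LL (Z ∪ S)`, the generators from RFG (note
`BB Z = AA Z ≤ LL (Z ∪ S)`), CUT and MAL; the kernel of `π` on `Γ` is `AA (Z ∪ S')`, torsion-free;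
`Γ = AA (Z ∪ S') * H`. -/
def S_STEP : Prop := S_SUB → S_RFG → S_RET → S_CUT → S_MAL → S_F0 → S_F1 → S_F2 → S_F3 → S_F4 →
  S_NEST → S_TREE → S_FIX → S_NB → S_EXT → S_REL →
  ∀ (G Q M Y : Type) [DecidableEq Y] [Group G] [Group Q] [Finite Q] [Group M] (F H : Subgroup G)
  [F.Normal] [F.FiniteIndex] (e : F ≃* FreeGroup Y) (π : G →* Q) (s : Q →* M), π.ker = F →
  ∀ (Z S S' : Set Y), Clo F H e Z → S'.Finite → S ⊆ S' → F ⊓ H ≤ BB F e (Z ∪ S) →
  ∀ f : G → M, Ok F H e π s (Z ∪ S) f →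
  ∃ f' : G → M, Ok F H e π s (Z ∪ S') f' ∧ ∀ g ∈ LL F H e (Z ∪ S), f' g = f g

/-- CLO. Closures. Let `T` be a finite set generating `H`, closed under inverses. `S' 0 = S`,
`S' (n + 1)` is `S' n` together with the letters of the words `e (t * e.symm (of y) * t⁻¹)`, `t ∈ T`,
`y ∈ S' n`. -/
def S_CLO : Prop := S_SUB → ∀ (G Y : Type) [DecidableEq Y] [Group G] (F H : Subgroup G) [F.Normal]
  (e : F ≃* FreeGroup Y), H.FG → ∀ (Z S : Set Y), Clo F H e Z → S.Finite →
  ∃ S' : ℕ → Set Y, S' 0 = S ∧ (∀ n, (S' n).Finite) ∧ Monotone S' ∧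
    Clo F H e (Z ∪ ⋃ n, S' n)

/-- CTB. Countable step: extend along `Z ∪ S' n` by STEP (recursion, dependent choice), and take the
union (DIR); a finite subgroup of the union is contained in one of the stages. -/
def S_CTB : Prop := S_SUB → S_DIR → S_CLO →
  ∀ (G Q M Y : Type) [DecidableEq Y] [Group G] [Group Q] [Finite Q] [Group M] (F H : Subgroup G)
  [F.Normal] [F.FiniteIndex] (e : F ≃* FreeGroup Y) (π : G →* Q) (s : Q →* M), H.FG →
  (∀ (Z S S' : Set Y), Clo F H e Z → S'.Finite → S ⊆ S' → F ⊓ H ≤ BB F e (Z ∪ S) →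
    ∀ f : G → M, Ok F H e π s (Z ∪ S) f →
    ∃ f' : G → M, Ok F H e π s (Z ∪ S') f' ∧ ∀ g ∈ LL F H e (Z ∪ S), f' g = f g) →
  ∀ (Z S : Set Y), Clo F H e Z → S.Finite → F ⊓ H ≤ BB F e (Z ∪ S) →
  ∀ f : G → M, Ok F H e π s (Z ∪ S) f →
  ∃ (Z' : Set Y) (f' : G → M), Z ∪ S ⊆ Z' ∧ Clo F H e Z' ∧ Ok F H e π s Z' f' ∧
    ∀ g ∈ LL F H e (Z ∪ S), f' g = f g

/-- ZORN. Zorn's lemma for the pairs `(Z, f')`, `Z` closed, `Z1 ⊆ Z`, `f'` ok on `LL Z`, agreeing with
`f` on `LL Z1`; for the chains use DIR (`exists_maximal_of_chains_bounded` in Mathlib); for the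
maximal element use the hypothesis with `S = {y}`, in two steps (`S = ∅` to `{y}`). -/
def S_ZORN : Prop := S_SUB → S_DIR →
  ∀ (G Q M Y : Type) [DecidableEq Y] [Group G] [Group Q] [Group M] (F H : Subgroup G)
  [F.Normal] [F.FiniteIndex] (e : F ≃* FreeGroup Y) (π : G →* Q) (s : Q →* M),
  (∀ (Z : Set Y) (y : Y), Clo F H e Z → F ⊓ H ≤ BB F e Z →
    ∀ f : G → M, Ok F H e π s Z f →
    ∃ (Z' : Set Y) (f' : G → M), Z ⊆ Z' ∧ y ∈ Z' ∧ Clo F H e Z' ∧ Ok F H e π s Z' f' ∧
      ∀ g ∈ LL F H e Z, f' g = f g) →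
  ∀ (Z1 : Set Y) (f : G → M), Clo F H e Z1 → F ⊓ H ≤ BB F e Z1 → Ok F H e π s Z1 f →
  ∃ f' : G → M, Ok F H e π s Set.univ f' ∧ ∀ g ∈ LL F H e Z1, f' g = f g

/-- ALL. Extension to all of `G` from `LL W0`, `W0` finite: CTB with `Z = ∅`, `S = W0`; then ZORN, whose
hypothesis follows from STEP (from `Z ∪ ∅` to `Z ∪ {y}`) and CTB (`S = {y}`). -/
def S_ALL : Prop := S_SUB → S_DIR → S_CLO → S_CTB → S_ZORN →
  ∀ (G Q M Y : Type) [DecidableEq Y] [Group G] [Group Q] [Finite Q] [Group M] (F H : Subgroup G)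
  [F.Normal] [F.FiniteIndex] (e : F ≃* FreeGroup Y) (π : G →* Q) (s : Q →* M), H.FG →
  (∀ g : G, ∃ k ∈ F, ∃ h ∈ H, g = k * h) →
  (∀ (Z S S' : Set Y), Clo F H e Z → S'.Finite → S ⊆ S' → F ⊓ H ≤ BB F e (Z ∪ S) →
    ∀ f : G → M, Ok F H e π s (Z ∪ S) f →
    ∃ f' : G → M, Ok F H e π s (Z ∪ S') f' ∧ ∀ g ∈ LL F H e (Z ∪ S), f' g = f g) →
  ∀ W0 : Set Y, W0.Finite → F ⊓ H ≤ BB F e W0 → ∀ f : G → M, Ok F H e π s W0 f →
  ∃ φ : G →* M, ∀ g ∈ LL F H e W0, φ g = f g

end grp

/-! ### Part 6: finitely generated groups -/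

/-- AXC. Cuts of the Cayley graph. `ρ0 x = e (x * t x)` with `t x` a representative of the coset of
`x⁻¹` (`Q27.LR.rho` in `Pool/Agent/Q27/LR/Hyp.lean`), `ρ x = ρ0 x * (ρ0 1)⁻¹`. An edge is `(x, x s)`, `s ∈ S ∪ S⁻¹`, and
`ρ (x s) = ρ x * v` with `v = (ρ x)⁻¹ * ρ (x s)`, which depends only on `s` and on the coset
`A x`; for a given coset and `s` the element `x` is determined by `ρ x`. Use F1. -/
def S_AXC : Prop := S_F0 → S_F1 → ∀ (Γ Y : Type) [Group Γ] [DecidableEq Y] (S : Set Γ)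
  (A : Subgroup Γ) [A.Normal] [A.FiniteIndex] (e : A ≃* FreeGroup Y), S.Finite →
  ∃ (ρ : Γ → FreeGroup Y) (n0 : ℕ), (∀ (a : A) (x : Γ), ρ (a * x) = e a * ρ x) ∧
    ρ 1 = 1 ∧ ∀ (g : FreeGroup Y) (y : Y), (cob (Cay S) (ρ ⁻¹' Hs g y)).Finite ∧
      (cob (Cay S) (ρ ⁻¹' Hs g y)).ncard ≤ n0

/-- SH. Almost invariance: for a generator this is clear from the finite coboundary (CO for the
complement), then closure induction on `g`. -/
def S_SH : Prop := S_CO → ∀ (Γ : Type) [Group Γ] (S : Set Γ), Subgroup.closure S = ⊤ →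
  ∀ U : Set Γ, (cob (Cay S) U).Finite → ∀ g : Γ, {x | ¬ (x ∈ U ↔ x * g ∈ U)}.Finite

/-- ABS. A finitely generated group `Γ` with a free normal subgroup `A` of finite index acts on a tree
such that `A` acts freely on the vertices. Proof. `X = Cay S`, `P` the set of all ultrafilters which
contain no finite set, `n0` from AXC. NEST and TREE give the tree. Let `a ∈ A`, `a ≠ 1`, `a • x = x`.
By AX for `e a` there is a half space `D` such that (up to exchanging `a` and `a⁻¹`) `a ^ n` is in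
`ρ ⁻¹' D` and `a⁻¹ ^ n` is not, for large `n`. Let `p` and `q` be non-principal ultrafilters containing
`{a ^ n | n ≥ N}`, respectively `{a⁻¹ ^ n | n ≥ N}`, for all `N` (images of a non-principal
ultrafilter on ℕ). NEST: there is `U ∈ B` separating `p` and `q`, say `U ∈ p`, `U ∉ q` (take the
complement if necessary). By SH for `g = a`, `a ^ n ∈ U` and `a⁻¹ ^ n ∉ U` for all large `n`. `a • U`
and `U` are nested and only `a • U ⊆ U` or `U ⊆ a • U` is possible; the second one is impossible (it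
gives `a ^ n ∈ U → a ^ (n - 1) ∈ U`). Also `a • U ≠ U`. So `a • U ⊂ U`, contradicting the last
property of TREE. -/
def S_ABS : Prop := S_F0 → S_F1 → S_AX → S_AXC → S_CO → S_SH → S_NEST → S_TREE →
  ∀ (Γ Y : Type) [Group Γ] [DecidableEq Y] (A : Subgroup Γ) [A.Normal] [A.FiniteIndex]
  (_ : A ≃* FreeGroup Y), Group.FG Γ →
  ∃ (C : Type) (_ : MulAction Γ C) (T : SimpleGraph C), IsTr T ∧
    (∀ (g : Γ) (x y : C), T.Adj x y → T.Adj (g • x) (g • y)) ∧
    ∀ a ∈ A, ∀ x : C, a • x = x → a = 1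

/-- TGT. The target. `Y` is the set of the orbits of `π.ker` on `C × C`, `Γ` permutes it, the kernel
of `π` acts trivially, which defines `θ` (`MonoidHom.liftOfSurjective` or similar). Write `[x, y]` for
the letter of the pair. `exists_pot` (no squares, see EXT) gives `F : C → FreeGroup Y` with
`F x0 = 1`, `F y = [y, x] * [x, y]⁻¹ * F x` for adjacent `x`, `y`. By connectedness
`F (g • x) = θ_g (F x) * F (g • x0)`. Put `φ g = ⟨(F (g • x0))⁻¹, π g⟩`. Injective: if `φ g = 1` then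
`g ∈ π.ker` and `F (g • x0) = 1`. But the word
`[x_k, x_(k-1)] [x_(k-1), x_k]⁻¹ ... [x_1, x_0] [x_0, x_1]⁻¹` of a geodesic path is reduced:
`[x_(i-1), x_i] ≠ [x_i, x_(i-1)]` because `k • x_(i-1) = x_i`, `k • x_i = x_(i-1)` implies
`k * k = 1`, `k = 1`; and `[x_i, x_(i+1)] ≠ [x_i, x_(i-1)]` because `k • x_i = x_i` implies `k = 1`. So
`g • x0 = x0` and `g = 1`. Pr: FIX; if `E` fixes `x`, then `n = inl (F x)` works; if it stabilises the
edge `x, y`, then `n = inl N`, `N = [x, y]⁻¹ * F x = [y, x]⁻¹ * F y`. -/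
def S_TGT : Prop := S_FIX → ∀ (Γ Q C : Type) [Group Γ] [Group Q] [MulAction Γ C]
  (T : SimpleGraph C), IsTr T → (∀ (g : Γ) (x y : C), T.Adj x y → T.Adj (g • x) (g • y)) →
  ∀ π : Γ →* Q, Function.Surjective π → (∀ a ∈ π.ker, ∀ x : C, a • x = x → a = 1) →
  (∀ a ∈ π.ker, a * a = 1 → a = 1) →
  ∃ (Y : Type) (θ : Q →* Equiv.Perm Y)
    (φ : Γ →* FreeGroup Y ⋊[(permAut Y).comp θ] Q),
    Function.Injective φ ∧ Pr π SemidirectProduct.inr ⊤ φ

/-- LRT. Finitely generated subgroups of the target are virtual retracts. Proof. Let `Y0` be a finite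
`θ`-invariant set of letters containing the letters of the first components of generators of `H`.
The map `FreeGroup Y → FreeGroup Y0` (as `FreeGroup` of the subtype) killing the other letters is
equivariant and gives `κ` from the target to `FreeGroup Y0 ⋊ Q`, injective on `H` (the elements of `H`
have their first components in the subgroup generated by `Y0`). The group `FreeGroup Y0 ⋊ Q` is
finitely generated and the kernel of its projection to `Q` is free of finite index. By `Q27.LR.main` the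
image of `H` is a virtual retract; use PB. -/
def S_LRT : Prop := ∀ (Q Y : Type) [Group Q] [Finite Q] (θ : Q →* Equiv.Perm Y)
  (H : Subgroup (FreeGroup Y ⋊[(permAut Y).comp θ] Q)), H.FG → IsVirtualRetract H

/-- PB. Pull back of virtual retractions. -/
def S_PB : Prop := ∀ (G M : Type) [Group G] [Group M] (φ : G →* M) (H : Subgroup G),
  (∀ h ∈ H, φ h = 1 → h = 1) → IsVirtualRetract (H.map φ) → IsVirtualRetract H

/-- RED. Reduction to `G = F H` with `F` normal. `F` may be replaced by its normal core (Nielsen and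
Schreier), `G` by the finite index subgroup `F ⊔ H`. -/
def S_RED : Prop := (∀ (G Y : Type) [Group G] [DecidableEq Y] (F H : Subgroup G) [F.Normal]
    [F.FiniteIndex] (_ : F ≃* FreeGroup Y), H.FG → (∀ g : G, ∃ k ∈ F, ∃ h ∈ H, g = k * h) →
    IsVirtualRetract H) →
  ∀ (G : Type) [Group G] (F : Subgroup G), F.FiniteIndex → IsFreeGroup F → ∀ H : Subgroup G, H.FG →
    IsVirtualRetract H

/-- FIN. The final assembly. `Q = G ⧸ F`. Let `W0` be a finite set of letters with `F ∩ H ≤ BB W0`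
(`F ∩ H` is finitely generated). `LL W0` is finitely generated (RFG with `Z = ∅`). ABS for
`Γ = LL W0`, `A = AA W0`, which is free (Nielsen and Schreier), and TGT give an injective
`φ : LL W0 → M`, `M = FreeGroup Y' ⋊ Q`, with `Pr`. By ALL it extends to `G`; it is injective on `H`.
LRT and PB finish the proof. -/
def S_FIN : Prop := S_SUB → S_RFG → S_RET →
  (∀ (Γ Y : Type) [Group Γ] [DecidableEq Y] (A : Subgroup Γ) [A.Normal] [A.FiniteIndex]
    (_ : A ≃* FreeGroup Y), Group.FG Γ →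
    ∃ (C : Type) (_ : MulAction Γ C) (T : SimpleGraph C), IsTr T ∧
      (∀ (g : Γ) (x y : C), T.Adj x y → T.Adj (g • x) (g • y)) ∧
      ∀ a ∈ A, ∀ x : C, a • x = x → a = 1) →
  S_FIX → S_TGT → S_LRT → S_PB →
  (∀ (G Q M Y : Type) [DecidableEq Y] [Group G] [Group Q] [Finite Q] [Group M] (F H : Subgroup G)
    [F.Normal] [F.FiniteIndex] (e : F ≃* FreeGroup Y) (π : G →* Q) (s : Q →* M), π.ker = F →
    H.FG → (∀ g : G, ∃ k ∈ F, ∃ h ∈ H, g = k * h) →
    ∀ W0 : Set Y, W0.Finite → F ⊓ H ≤ BB F e W0 → ∀ f : G → M, Ok F H e π s W0 f →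
    ∃ φ : G →* M, ∀ g ∈ LL F H e W0, φ g = f g) →
  ∀ (G Y : Type) [Group G] [DecidableEq Y] (F H : Subgroup G) [F.Normal]
    [F.FiniteIndex] (_ : F ≃* FreeGroup Y), H.FG → (∀ g : G, ∃ k ∈ F, ∃ h ∈ H, g = k * h) →
    IsVirtualRetract H

end Q32.LR2
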